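import Pool.Agent.Helper21.IM.Par

/-!
# KB-AR: area integrals over discs of analytic functions (problem MP_bff168_an)
-/

set_option autoImplicit false

namespace Pool.Agent.Helper23.KB

open Complex Metric Set MeasureTheory Real
open Pool.Agent.Helper21.IM (PS ps_exists ps_diff ps_summable parseval_sq)

theorem circ_nonneg {Φ : ℂ → ℝ} {ρ : ℝ} (h : ∀ θ : ℝ, 0 ≤ Φ (circleMap 0 ρ θ)) :
    0 ≤ circleAverage Φ 0 ρ := by
  rw [circleAverage_def, smul_eq_mul]
  refine mul_nonneg (by positivity) (intervalIntegral.integral_nonneg (by positivity) fun θ _ => h θ)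

/-- polar coordinates for a nonnegative continuous function on the disc -/
theorem polar {Φ : ℂ → ℝ} (hc : ContinuousOn Φ (ball 0 1)) (h0 : ∀ z ∈ ball (0 : ℂ) 1, 0 ≤ Φ z)
    {r : ℝ} (hr1 : r ≤ 1) :
    ∫⁻ z in ball (0 : ℂ) r, ENNReal.ofReal (Φ z) =
      ∫⁻ ρ in Ioo (0 : ℝ) r, ENNReal.ofReal (2 * π * ρ * circleAverage Φ 0 ρ) := by
  classical
  have hsub : ball (0 : ℂ) r ⊆ ball 0 1 := ball_subset_ball hr1
  have hpw : Measurable ((ball (0 : ℂ) r).indicator fun z => ENNReal.ofReal (Φ z)) := by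
    have h1 : Measurable ((ball (0 : ℂ) r).piecewise Φ fun _ => 0) :=
      (hc.mono hsub).measurable_piecewise continuousOn_const measurableSet_ball
    have h2 : ((ball (0 : ℂ) r).indicator fun z => ENNReal.ofReal (Φ z)) =
        fun z => ENNReal.ofReal ((ball (0 : ℂ) r).piecewise Φ (fun _ => 0) z) := by
      funext z
      by_cases hz : z ∈ ball (0 : ℂ) r
      · rw [indicator_of_mem hz, piecewise_eq_of_mem _ _ _ hz]
      · rw [indicator_of_notMem hz, piecewise_eq_of_notMem _ _ _ hz, ENNReal.ofReal_zero]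
    rw [h2]
    exact h1.ennreal_ofReal
  rw [← lintegral_indicator measurableSet_ball, ← Complex.lintegral_comp_polarCoord_symm]
  have hT : polarCoord.target = Ioi (0 : ℝ) ×ˢ Ioo (-π) π := rfl
  have hsymm : ∀ p : ℝ × ℝ, Complex.polarCoord.symm p = circleMap 0 p.1 p.2 := by
    intro p
    rw [Complex.polarCoord_symm_apply, circleMap, zero_add, Complex.exp_mul_I, Complex.ofReal_cos,
      Complex.ofReal_sin]
  have hcm : Continuous fun p : ℝ × ℝ => circleMap 0 p.1 p.2 := by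
    unfold circleMap
    fun_prop
  have hmeas : Measurable fun p : ℝ × ℝ => ENNReal.ofReal p.1 •
      ((ball (0 : ℂ) r).indicator fun z => ENNReal.ofReal (Φ z)) (Complex.polarCoord.symm p) := by
    simp only [hsymm, smul_eq_mul]
    exact (measurable_fst.ennreal_ofReal).mul (hpw.comp hcm.measurable)
  rw [hT, Measure.volume_eq_prod, ← Measure.prod_restrict, lintegral_prod _ hmeas.aemeasurable]
  have hin : ∀ ρ ∈ Ioi (0 : ℝ), ∫⁻ θ in Ioo (-π) π, ENNReal.ofReal ρ •
      ((ball (0 : ℂ) r).indicator fun z => ENNReal.ofReal (Φ z)) (Complex.polarCoord.symm (ρ, θ)) =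
      (Ioo (0 : ℝ) r).indicator (fun ρ => ENNReal.ofReal (2 * π * ρ * circleAverage Φ 0 ρ)) ρ := by
    intro ρ hρ
    have hρ0 : 0 < ρ := hρ
    have hn : ∀ θ : ℝ, ‖circleMap 0 ρ θ‖ = ρ := fun θ => by
      rw [norm_circleMap_zero, abs_of_pos hρ0]
    by_cases hρr : ρ < r
    · rw [indicator_of_mem (show ρ ∈ Ioo (0 : ℝ) r from ⟨hρ0, hρr⟩)]
      have hmem : ∀ θ : ℝ, circleMap 0 ρ θ ∈ ball (0 : ℂ) r := fun θ => by
        rw [mem_ball_zero_iff, hn]
        exact hρr
      have hcont : Continuous fun θ : ℝ => Φ (circleMap 0 ρ θ) :=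
        (hc.mono hsub).comp_continuous (continuous_circleMap 0 ρ) hmem
      have e1 : ∀ θ : ℝ, ENNReal.ofReal ρ •
          ((ball (0 : ℂ) r).indicator fun z => ENNReal.ofReal (Φ z))
            (Complex.polarCoord.symm (ρ, θ)) =
          ENNReal.ofReal ρ * ENNReal.ofReal (Φ (circleMap 0 ρ θ)) := by
        intro θ
        rw [hsymm, indicator_of_mem (hmem θ), smul_eq_mul]
      simp only [e1]
      rw [lintegral_const_mul' _ _ ENNReal.ofReal_ne_top]
      have e2 : ∫⁻ θ in Ioo (-π) π, ENNReal.ofReal (Φ (circleMap 0 ρ θ)) =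
          ENNReal.ofReal (∫ θ in Ioo (-π) π, Φ (circleMap 0 ρ θ)) := by
        rw [ofReal_integral_eq_lintegral_ofReal]
        · exact (hcont.integrableOn_Icc (a := -π) (b := π)).mono_set Ioo_subset_Icc_self
        · exact Filter.Eventually.of_forall fun θ => h0 _ (hsub (hmem θ))
      rw [e2, ← ENNReal.ofReal_mul hρ0.le]
      congr 1
      have e3 : ∫ θ in Ioo (-π) π, Φ (circleMap 0 ρ θ) = ∫ θ in (-π)..π, Φ (circleMap 0 ρ θ) := by
        rw [intervalIntegral.integral_of_le (by linarith [pi_pos]), integral_Ioc_eq_integral_Ioo]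
      have hper : Function.Periodic (fun θ : ℝ => Φ (circleMap 0 ρ θ)) (2 * π) := by
        intro θ
        show Φ (circleMap 0 ρ (θ + 2 * π)) = Φ (circleMap 0 ρ θ)
        rw [periodic_circleMap 0 ρ θ]
      have e4 : ∫ θ in (-π)..π, Φ (circleMap 0 ρ θ) = ∫ θ in (0 : ℝ)..2 * π, Φ (circleMap 0 ρ θ) := by
        have h5 := hper.intervalIntegral_add_eq (-π) 0
        rw [zero_add] at h5
        rw [← h5]
        congr 1
        ring
      rw [e3, e4, circleAverage_def, smul_eq_mul]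
      have hpi : (2 * π : ℝ) ≠ 0 := by positivity
      field_simp
    · rw [indicator_of_notMem (fun h => hρr h.2)]
      have e1 : ∀ θ : ℝ, ENNReal.ofReal ρ •
          ((ball (0 : ℂ) r).indicator fun z => ENNReal.ofReal (Φ z))
            (Complex.polarCoord.symm (ρ, θ)) = 0 := by
        intro θ
        rw [hsymm, indicator_of_notMem, smul_zero]
        rw [mem_ball_zero_iff, hn]
        exact hρr
      simp only [e1, lintegral_zero]
  rw [setLIntegral_congr_fun measurableSet_Ioi hin, setLIntegral_indicator measurableSet_Ioo]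
  congr 2
  ext x
  constructor
  · intro h
    exact h.1
  · intro h
    exact ⟨h, h.1⟩

/-- termwise integration of nonnegative functions -/
theorem sum_int {q : ℕ → ℝ → ℝ} {x : ℕ → ℝ} {r : ℝ} (hr : 0 ≤ r) (hq : ∀ k, Continuous (q k))
    (hx : ∀ k, 0 ≤ x k) (h0 : ∀ k, ∀ ρ ∈ Ioo (0 : ℝ) r, 0 ≤ q k ρ) :
    ∫⁻ ρ in Ioo (0 : ℝ) r, ∑' k, ENNReal.ofReal (x k * q k ρ) =
      ∑' k, ENNReal.ofReal (x k * ∫ ρ in (0 : ℝ)..r, q k ρ) := by
  have hm : ∀ k, Measurable fun ρ : ℝ => ENNReal.ofReal (x k * q k ρ) := fun k =>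
    (continuous_const.mul (hq k)).measurable.ennreal_ofReal
  rw [lintegral_tsum fun k => (hm k).aemeasurable]
  congr 1
  funext k
  have h1 : ∫ ρ in (0 : ℝ)..r, q k ρ = ∫ ρ in Ioo (0 : ℝ) r, q k ρ := by
    rw [intervalIntegral.integral_of_le hr, integral_Ioc_eq_integral_Ioo]
  rw [h1, ← integral_const_mul, ofReal_integral_eq_lintegral_ofReal]
  · exact ((continuous_const.mul (hq k)).integrableOn_Icc (a := 0) (b := r)).mono_set
      Ioo_subset_Icc_self
  · refine (ae_restrict_iff' measurableSet_Ioo).2 (Filter.Eventually.of_forall fun ρ hρ => ?_)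
    exact mul_nonneg (hx k) (h0 k ρ hρ)

theorem ennreal_hs {x : ℕ → ℝ} {S : ℝ} (hx : ∀ k, 0 ≤ x k) (hS : 0 ≤ S)
    (h : ∑' k, ENNReal.ofReal (x k) = ENNReal.ofReal S) : HasSum x S := by
  have h1 : ∑' k, ENNReal.ofReal (x k) ≠ ⊤ := by
    rw [h]
    exact ENNReal.ofReal_ne_top
  have h2 := ENNReal.hasSum_toReal h1
  rw [← ENNReal.tsum_toReal_eq (fun k => ENNReal.ofReal_ne_top), h, ENNReal.toReal_ofReal hS] at h2
  have h3 : (fun k => (ENNReal.ofReal (x k)).toReal) = x := by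
    funext k
    exact ENNReal.toReal_ofReal (hx k)
  rw [h3] at h2
  exact h2

/-- `(1/π) ∫_{|z|<r} |f|²` -/
noncomputable def sq (f : ℂ → ℂ) (r : ℝ) : ℝ := π⁻¹ * ∫ z in ball (0 : ℂ) r, ‖f z‖ ^ 2

theorem area_series {f : ℂ → ℂ} {a : ℕ → ℂ} (hf : PS f a) {r : ℝ} (hr : 0 ≤ r) (hr1 : r ≤ 1)
    (hi : IntegrableOn (fun z => ‖f z‖ ^ 2) (ball 0 1)) :
    HasSum (fun k : ℕ => ‖a k‖ ^ 2 * (r ^ (2 * k + 2) / (k + 1))) (sq f r) := by
  have hfc : ContinuousOn (fun z => ‖f z‖ ^ 2) (ball 0 1) :=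
    (ps_diff hf).continuousOn.norm.pow 2
  have hir : IntegrableOn (fun z => ‖f z‖ ^ 2) (ball 0 r) :=
    hi.mono_set (ball_subset_ball hr1)
  have h1 : ENNReal.ofReal (∫ z in ball (0 : ℂ) r, ‖f z‖ ^ 2) =
      ∑' k : ℕ, ENNReal.ofReal (‖a k‖ ^ 2 * (π * (r ^ (2 * k + 2) / (k + 1)))) := by
    rw [ofReal_integral_eq_lintegral_ofReal hir (Filter.Eventually.of_forall fun z => by positivity),
      polar hfc (fun z _ => by positivity) hr1]
    have h2 : ∀ ρ ∈ Ioo (0 : ℝ) r, ENNReal.ofReal (2 * π * ρ *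
        circleAverage (fun z => ‖f z‖ ^ 2) 0 ρ) =
        ∑' k, ENNReal.ofReal (‖a k‖ ^ 2 * (2 * π * ρ * ρ ^ (2 * k))) := by
      intro ρ hρ
      have h3 := (parseval_sq hf hρ.1.le (hρ.2.trans_le hr1)).mul_left (2 * π * ρ)
      have hρ0 : 0 < ρ := hρ.1
      have h4 : (fun m => 2 * π * ρ * (‖a m‖ ^ 2 * ρ ^ (2 * m))) =
          fun m => ‖a m‖ ^ 2 * (2 * π * ρ * ρ ^ (2 * m)) := by
        funext m
        ring
      rw [h4] at h3
      rw [← h3.tsum_eq, ENNReal.ofReal_tsum_of_nonneg _ h3.summable]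
      intro k
      positivity
    rw [setLIntegral_congr_fun measurableSet_Ioo h2, sum_int hr (fun k => by fun_prop)
      (fun k => by positivity) (fun k ρ hρ => by
        have := hρ.1
        positivity)]
    congr 1
    funext k
    congr 2
    have h5 : ∫ ρ in (0 : ℝ)..r, 2 * π * ρ * ρ ^ (2 * k) =
        2 * π * ∫ ρ in (0 : ℝ)..r, ρ ^ (2 * k + 1) := by
      rw [← intervalIntegral.integral_const_mul]
      congr 1
      funext ρ
      ring
    rw [h5, integral_pow]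
    have hk : (k : ℝ) + 1 ≠ 0 := by positivity
    push_cast
    have e1 : (2 * (k : ℝ) + 1 + 1) = 2 * (k + 1) := by ring
    rw [e1, zero_pow (by omega)]
    field_simp
    ring
  have h6 := ennreal_hs (fun k => by positivity)
    (integral_nonneg fun z => by positivity) h1.symm
  have h7 := h6.mul_left π⁻¹
  have h8 : (fun k : ℕ => π⁻¹ * (‖a k‖ ^ 2 * (π * (r ^ (2 * k + 2) / ((k : ℝ) + 1))))) =
      fun k : ℕ => ‖a k‖ ^ 2 * (r ^ (2 * k + 2) / (k + 1)) := by
    funext k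
    have := pi_ne_zero
    field_simp
  rw [h8] at h7
  exact h7

end Pool.Agent.Helper23.KB
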