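import Pool.Agent.Helper23.KB.Area

/-!
# KB: definitions and first facts
-/

set_option autoImplicit false

namespace Pool.Agent.Helper23.KB

open Complex Metric Set MeasureTheory Real
open Pool.Agent.Helper21.IM (PS ps_exists ps_diff ps_summable parseval_sq ps_zero ps_sub ps_const
  ps_congr)

/-- the unit sphere of the Bergman space -/
def Sph (f : ℂ → ℂ) : Prop :=
  DifferentiableOn ℂ f (ball 0 1) ∧ IntegrableOn (fun z => ‖f z‖ ^ 2) (ball 0 1) ∧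
    π⁻¹ * ∫ z in ball (0 : ℂ) 1, ‖f z‖ ^ 2 = 1

/-- `|f| ≤ t |g|` on the annulus `c ≤ |z| < 1` -/
def Dom (c t : ℝ) (f g : ℂ → ℂ) : Prop := ∀ z : ℂ, c ≤ ‖z‖ → ‖z‖ < 1 → ‖f z‖ ≤ t * ‖g z‖

/-- Korenblum's function -/
noncomputable def KF (c : ℝ) : ℝ :=
  sInf {t : ℝ | 0 ≤ t ∧ ∃ f g : ℂ → ℂ, Sph f ∧ Sph g ∧ Dom c t f g}

/-- extremal pairs -/
def Ext (c : ℝ) (f g : ℂ → ℂ) : Prop := Sph f ∧ Sph g ∧ Dom c (KF c) f g

theorem kf_nonneg (c : ℝ) : 0 ≤ KF c := Real.sInf_nonneg fun _ ht => ht.1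

theorem kf_le {c t : ℝ} (ht : 0 ≤ t) {f g : ℂ → ℂ} (hf : Sph f) (hg : Sph g) (h : Dom c t f g) :
    KF c ≤ t :=
  csInf_le ⟨0, fun _ hs => hs.1⟩ ⟨ht, f, g, hf, hg, h⟩

theorem ps_mono (n : ℕ) (x : ℂ) : PS (fun z => x * z ^ n) (fun m => if m = n then x else 0) := by
  intro z _
  have h := hasSum_ite_eq n (x * z ^ n)
  have h1 : (fun m => (if m = n then x else 0) * z ^ m) = fun m => if m = n then x * z ^ n else 0 := by
    funext m
    split_ifs with hm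
    · rw [hm]
    · rw [zero_mul]
  rw [h1]
  exact h

theorem int_cont {Φ : ℂ → ℝ} (h : Continuous Φ) : IntegrableOn Φ (ball (0 : ℂ) 1) :=
  (h.continuousOn.integrableOn_compact (isCompact_closedBall 0 1)).mono_set ball_subset_closedBall

theorem sph_mono (n : ℕ) : Sph fun z => ((√((n : ℝ) + 1) : ℝ) : ℂ) * z ^ n := by
  have hi : IntegrableOn (fun z : ℂ => ‖((√((n : ℝ) + 1) : ℝ) : ℂ) * z ^ n‖ ^ 2) (ball 0 1) :=
    int_cont (by fun_prop)
  refine ⟨by fun_prop, hi, ?_⟩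
  have h := area_series (ps_mono n ((√((n : ℝ) + 1) : ℝ) : ℂ)) zero_le_one le_rfl hi
  have h1 := hasSum_ite_eq n (1 : ℝ)
  have h2 : (fun k : ℕ => ‖(if k = n then ((√((n : ℝ) + 1) : ℝ) : ℂ) else 0)‖ ^ 2 *
      ((1 : ℝ) ^ (2 * k + 2) / (k + 1))) = fun k => if k = n then 1 else 0 := by
    funext k
    split_ifs with hk
    · have h3 : (0 : ℝ) ≤ (n : ℝ) + 1 := by positivity
      rw [hk, Complex.norm_real, Real.norm_eq_abs, sq_abs, Real.sq_sqrt h3, one_pow]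
      field_simp
    · rw [norm_zero]
      ring
  rw [h2] at h
  exact h.unique h1

theorem kf_mono_le {c : ℝ} (hc : 0 < c) (k : ℕ) : KF c ^ 2 * (((k : ℝ) + 1) * c ^ (2 * k)) ≤ 1 := by
  have hk : (0 : ℝ) < (k : ℝ) + 1 := by positivity
  have hs : 0 < √((k : ℝ) + 1) := Real.sqrt_pos.2 hk
  have h1 : KF c ≤ 1 / (√((k : ℝ) + 1) * c ^ k) := by
    refine kf_le (by positivity) (sph_mono 0) (sph_mono k) fun z hz _ => ?_
    rw [norm_mul, norm_mul, norm_pow, norm_pow, pow_zero, mul_one, Complex.norm_real,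
      Complex.norm_real, Real.norm_eq_abs, Real.norm_eq_abs, abs_of_pos hs, Nat.cast_zero, zero_add,
      Real.sqrt_one, abs_one]
    have h2 : c ^ k ≤ ‖z‖ ^ k := pow_le_pow_left₀ hc.le hz k
    rw [div_mul_eq_mul_div, one_mul, le_div_iff₀ (by positivity), one_mul]
    exact mul_le_mul_of_nonneg_left h2 hs.le
  have h3 : KF c ^ 2 ≤ (1 / (√((k : ℝ) + 1) * c ^ k)) ^ 2 := pow_le_pow_left₀ (kf_nonneg c) h1 2
  have h4 : (1 / (√((k : ℝ) + 1) * c ^ k)) ^ 2 * (((k : ℝ) + 1) * c ^ (2 * k)) = 1 := by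
    rw [div_pow, mul_pow, Real.sq_sqrt hk.le, ← pow_mul, mul_comm k 2]
    have : 0 < ((k : ℝ) + 1) * c ^ (2 * k) := by positivity
    field_simp
  calc KF c ^ 2 * (((k : ℝ) + 1) * c ^ (2 * k))
      ≤ (1 / (√((k : ℝ) + 1) * c ^ k)) ^ 2 * (((k : ℝ) + 1) * c ^ (2 * k)) :=
        mul_le_mul_of_nonneg_right h3 (by positivity)
    _ = 1 := h4

end Pool.Agent.Helper23.KB
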