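import Mathlib

/-!
# KB: the numbers
-/

set_option autoImplicit false

namespace Pool.Agent.Helper23.KB

open Real

/-- the weights `(k + 1) c ^ (2 k)` are largest at `k = n` -/
theorem smax {n : ℕ} {c : ℝ} (h0 : 0 < c) (hlo : (n : ℝ) / (n + 1) ≤ c ^ 2)
    (hhi : c ^ 2 ≤ ((n : ℝ) + 1) / (n + 2)) (k : ℕ) :
    ((k : ℝ) + 1) * c ^ (2 * k) ≤ ((n : ℝ) + 1) * c ^ (2 * n) := by
  have up : ∀ j : ℕ, (((n + j : ℕ) : ℝ) + 1) * c ^ (2 * (n + j)) ≤ ((n : ℝ) + 1) * c ^ (2 * n) := by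
    intro j
    induction j with
    | zero => simp
    | succ j ih =>
      refine le_trans ?_ ih
      have h1 : c ^ (2 * (n + (j + 1))) = c ^ (2 * (n + j)) * c ^ 2 := by ring
      rw [h1]
      have h2 : (((n + (j + 1) : ℕ) : ℝ) + 1) * c ^ 2 ≤ ((n + j : ℕ) : ℝ) + 1 := by
        push_cast
        have hn : (0 : ℝ) < (n : ℝ) + 2 := by positivity
        have hj : (0 : ℝ) ≤ j := Nat.cast_nonneg j
        have h3 := mul_le_mul_of_nonneg_left hhi
          (show (0 : ℝ) ≤ (n : ℝ) + (j + 1) + 1 by positivity)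
        refine h3.trans ?_
        rw [← mul_div_assoc, div_le_iff₀ hn]
        nlinarith
      have h4 : 0 ≤ c ^ (2 * (n + j)) := by positivity
      nlinarith [mul_le_mul_of_nonneg_right h2 h4]
  have down : ∀ j : ℕ, j ≤ n →
      (((n - j : ℕ) : ℝ) + 1) * c ^ (2 * (n - j)) ≤ ((n : ℝ) + 1) * c ^ (2 * n) := by
    intro j
    induction j with
    | zero => intro _; simp
    | succ j ih =>
      intro hj
      refine le_trans ?_ (ih (by omega))
      obtain ⟨m, hm⟩ : ∃ m, n - (j + 1) = m := ⟨_, rfl⟩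
      have hm1 : n - j = m + 1 := by omega
      rw [hm, hm1]
      have h1 : c ^ (2 * (m + 1)) = c ^ (2 * m) * c ^ 2 := by ring
      rw [h1]
      have h2 : (m : ℝ) + 1 ≤ (((m + 1 : ℕ) : ℝ) + 1) * c ^ 2 := by
        push_cast
        have hn : (0 : ℝ) < (n : ℝ) + 1 := by positivity
        have hmn : (m : ℝ) + 1 ≤ n := by exact_mod_cast (show m + 1 ≤ n by omega)
        have h3 := mul_le_mul_of_nonneg_left hlo (show (0 : ℝ) ≤ (m : ℝ) + 1 + 1 by positivity)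
        refine le_trans ?_ h3
        rw [← mul_div_assoc, le_div_iff₀ hn]
        nlinarith
      have h4 : 0 ≤ c ^ (2 * m) := by positivity
      nlinarith [mul_le_mul_of_nonneg_right h2 h4]
  rcases le_total k n with hk | hk
  · have := down (n - k) (Nat.sub_le _ _)
    rwa [show n - (n - k) = k by omega] at this
  · have := up (k - n)
    rwa [show n + (k - n) = k by omega] at this

theorem logw {n : ℕ} (hn : 1 ≤ n) {c : ℝ} (h0 : 0 < c) (hlo : (n : ℝ) / (n + 1) ≤ c ^ 2)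
    (hhi : c ^ 2 ≤ ((n : ℝ) + 1) / (n + 2)) (k : ℕ) {x : ℝ} (hx : 0 < x)
    (hxy : x ^ 2 = ((k : ℝ) + 1) / (n + 1)) :
    Real.log (x ^ 2 * (c ^ k / c ^ n) ^ 2) ≤ -(x - 1) ^ 2 + |x ^ 2 - 1| / n := by
  have hn0 : (0 : ℝ) < n := by exact_mod_cast hn
  have hn1 : (0 : ℝ) < (n : ℝ) + 1 := by positivity
  have hn2 : (0 : ℝ) < (n : ℝ) + 2 := by positivity
  have hc2 : 0 < c ^ 2 := by positivity
  have e1 : Real.log (x ^ 2 * (c ^ k / c ^ n) ^ 2) =
      2 * Real.log x + ((k : ℝ) - n) * Real.log (c ^ 2) := by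
    rw [Real.log_mul (by positivity) (by positivity), Real.log_pow, Real.log_pow,
      Real.log_div (by positivity) (by positivity), Real.log_pow, Real.log_pow, Real.log_pow]
    push_cast
    ring
  have e2 : (k : ℝ) - n = ((n : ℝ) + 1) * (x ^ 2 - 1) := by
    rw [hxy]
    field_simp
    ring
  have l1 : Real.log x ≤ x - 1 := Real.log_le_sub_one_of_pos hx
  have l2 : Real.log (c ^ 2) ≤ -(1 / ((n : ℝ) + 2)) := by
    have h1 := (Real.log_le_log hc2 hhi).trans (Real.log_le_sub_one_of_pos (by positivity))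
    refine h1.trans (le_of_eq ?_)
    field_simp
    ring
  have l3 : -(1 / (n : ℝ)) ≤ Real.log (c ^ 2) := by
    have h1 := Real.log_le_log (by positivity) hlo
    have h2 : Real.log ((n : ℝ) / (n + 1)) = -Real.log (((n : ℝ) + 1) / n) := by
      rw [← Real.log_inv, inv_div]
    have h3 : Real.log (((n : ℝ) + 1) / n) ≤ ((n : ℝ) + 1) / n - 1 :=
      Real.log_le_sub_one_of_pos (by positivity)
    have h4 : ((n : ℝ) + 1) / n - 1 = 1 / n := by
      field_simp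
      ring
    linarith
  rw [e1, e2]
  rcases le_total 1 (x ^ 2) with h1 | h1
  · rw [abs_of_nonneg (by linarith)]
    have h2 : ((n : ℝ) + 1) * (x ^ 2 - 1) * Real.log (c ^ 2) ≤
        ((n : ℝ) + 1) * (x ^ 2 - 1) * (-(1 / ((n : ℝ) + 2))) :=
      mul_le_mul_of_nonneg_left l2 (mul_nonneg hn1.le (by linarith))
    have h3 : ((n : ℝ) + 1) * (x ^ 2 - 1) * (-(1 / ((n : ℝ) + 2))) =
        -(x ^ 2 - 1) + (x ^ 2 - 1) / (n + 2) := by
      field_simp
      ring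
    have h4 : (x ^ 2 - 1) / ((n : ℝ) + 2) ≤ (x ^ 2 - 1) / n :=
      div_le_div_of_nonneg_left (by linarith) hn0 (by linarith)
    nlinarith
  · rw [abs_of_nonpos (by linarith)]
    have h2 : ((n : ℝ) + 1) * (x ^ 2 - 1) * Real.log (c ^ 2) ≤
        ((n : ℝ) + 1) * (x ^ 2 - 1) * (-(1 / (n : ℝ))) :=
      mul_le_mul_of_nonpos_left l3 (mul_nonpos_of_nonneg_of_nonpos hn1.le (by linarith))
    have h3 : ((n : ℝ) + 1) * (x ^ 2 - 1) * (-(1 / (n : ℝ))) =
        -(x ^ 2 - 1) + -(x ^ 2 - 1) / n := by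
      field_simp
      ring
    nlinarith

theorem shape {n : ℕ} (hn : 1 ≤ n) {x w : ℝ} (hx : 0 < x) (hw : 0 < w)
    (h : Real.log w ≤ -(x - 1) ^ 2 + |x ^ 2 - 1| / n) :
    (x - 1) ^ 2 / (1 + x ^ 2) ≤ 3 * max (1 - w) 0 + 8 / (n : ℝ) ^ 2 := by
  have hn0 : (0 : ℝ) < n := by exact_mod_cast hn
  have hx2 : (0 : ℝ) < 1 + x ^ 2 := by positivity
  have habs : |x ^ 2 - 1| = |x - 1| * (x + 1) := by
    rw [show x ^ 2 - 1 = (x - 1) * (x + 1) by ring, abs_mul, abs_of_pos (show 0 < x + 1 by linarith)]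
  set d := |x - 1| with hd
  have hd0 : 0 ≤ d := abs_nonneg _
  have hd2 : (x - 1) ^ 2 = d ^ 2 := (sq_abs _).symm
  have hm0 : 0 ≤ max (1 - w) 0 := le_max_right _ _
  have hm1 : 1 - w ≤ max (1 - w) 0 := le_max_left _ _
  rw [hd2] at h ⊢
  rcases le_total (2 * (x + 1)) (n * d) with h1 | h1
  · have h2 : |x ^ 2 - 1| / n ≤ d ^ 2 / 2 := by
      rw [habs, div_le_iff₀ hn0]
      nlinarith
    have h3 : Real.log w ≤ -(d ^ 2 / 2) := by linarith
    have h4 : w ≤ Real.exp (-(d ^ 2 / 2)) := by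
      rw [← Real.exp_log hw]
      exact Real.exp_le_exp.2 h3
    have h5 : Real.exp (-(d ^ 2 / 2)) * (1 + d ^ 2 / 2) ≤ 1 := by
      have h6 := Real.add_one_le_exp (d ^ 2 / 2)
      have h7 : Real.exp (-(d ^ 2 / 2)) * Real.exp (d ^ 2 / 2) = 1 := by
        rw [← Real.exp_add, neg_add_cancel, Real.exp_zero]
      nlinarith [Real.exp_pos (-(d ^ 2 / 2))]
    have h6 : w * (1 + d ^ 2 / 2) ≤ 1 :=
      (mul_le_mul_of_nonneg_right h4 (by positivity)).trans h5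
    have h7 : d ^ 2 ≤ (2 + d ^ 2) * (1 - w) := by nlinarith
    have h8 : d ^ 2 ≤ 1 + x ^ 2 := by rw [← hd2]; nlinarith
    have h9 : 0 ≤ 1 - w := by
      by_contra hcon
      nlinarith [sq_nonneg d]
    have h10 : d ^ 2 / (1 + x ^ 2) ≤ 3 * (1 - w) := by
      rw [div_le_iff₀ hx2]
      nlinarith
    have h11 : 0 ≤ 8 / (n : ℝ) ^ 2 := by positivity
    linarith
  · have h2 : d ^ 2 / (1 + x ^ 2) ≤ 8 / (n : ℝ) ^ 2 := by
      rw [div_le_div_iff₀ hx2 (by positivity)]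
      have h3 : (n * d) ^ 2 ≤ (2 * (x + 1)) ^ 2 := pow_le_pow_left₀ (by positivity) h1 2
      nlinarith [sq_nonneg (x - 1)]
    linarith

/-- the radial comparison -/
theorem jint (n k : ℕ) (r : ℝ) :
    ∫ ρ in (0 : ℝ)..1, 2 * ρ * (ρ ^ k - ρ ^ n * r) ^ 2 =
      1 / ((k : ℝ) + 1) - 4 * r / ((n : ℝ) + k + 2) + r ^ 2 / ((n : ℝ) + 1) := by
  have e : (fun ρ : ℝ => 2 * ρ * (ρ ^ k - ρ ^ n * r) ^ 2) = fun ρ => 2 * ρ ^ (2 * k + 1) -
      4 * r * ρ ^ (n + k + 1) + 2 * r ^ 2 * ρ ^ (2 * n + 1) := by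
    funext ρ
    ring
  rw [e, intervalIntegral.integral_add (Continuous.intervalIntegrable (by fun_prop) _ _)
      (Continuous.intervalIntegrable (by fun_prop) _ _),
    intervalIntegral.integral_sub (Continuous.intervalIntegrable (by fun_prop) _ _)
      (Continuous.intervalIntegrable (by fun_prop) _ _),
    intervalIntegral.integral_const_mul, intervalIntegral.integral_const_mul,
    intervalIntegral.integral_const_mul, integral_pow, integral_pow, integral_pow]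
  have h1 : (k : ℝ) + 1 ≠ 0 := by positivity
  have h2 : (n : ℝ) + 1 ≠ 0 := by positivity
  have h3 : (n : ℝ) + k + 2 ≠ 0 := by positivity
  have h4 : (2 * (k : ℝ) + 1 + 1) = 2 * (k + 1) := by ring
  have h5 : (2 * (n : ℝ) + 1 + 1) = 2 * (n + 1) := by ring
  have h6 : ((n : ℝ) + k + 1 + 1) = n + k + 2 := by ring
  rw [zero_pow (by omega), zero_pow (by omega), zero_pow (by omega)]
  push_cast
  rw [h4, h5, h6]
  field_simp
  ring

theorem tk {n : ℕ} (hn : 1 ≤ n) {c : ℝ} (h0 : 0 < c) (hlo : (n : ℝ) / (n + 1) ≤ c ^ 2)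
    (hhi : c ^ 2 ≤ ((n : ℝ) + 1) / (n + 2)) (k : ℕ) :
    ((k : ℝ) + 1) * ∫ ρ in (0 : ℝ)..1, 2 * ρ * (ρ ^ k - ρ ^ n * (c ^ k / c ^ n)) ^ 2 ≤
      7 * (1 - ((k : ℝ) + 1) * c ^ (2 * k) / (((n : ℝ) + 1) * c ^ (2 * n))) + 16 / (n : ℝ) ^ 2 := by
  have hn0 : (0 : ℝ) < n := by exact_mod_cast hn
  set r := c ^ k / c ^ n with hr
  have hr0 : 0 < r := by positivity
  set x := √(((k : ℝ) + 1) / (n + 1)) with hx
  have hx0 : 0 < x := Real.sqrt_pos.2 (by positivity)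
  have hxy : x ^ 2 = ((k : ℝ) + 1) / (n + 1) := Real.sq_sqrt (by positivity)
  set w := x ^ 2 * r ^ 2 with hw
  have hw0 : 0 < w := by positivity
  have ew : ((k : ℝ) + 1) * c ^ (2 * k) / (((n : ℝ) + 1) * c ^ (2 * n)) = w := by
    rw [hw, hxy, hr, div_pow, ← pow_mul, ← pow_mul, mul_comm k 2, mul_comm n 2]
    field_simp
  have hw1 : w ≤ 1 := by
    rw [← ew, div_le_one (by positivity)]
    exact smax h0 hlo hhi k
  have h1 := shape hn hx0 hw0 (logw hn h0 hlo hhi k hx0 hxy)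
  rw [max_eq_left (by linarith)] at h1
  rw [ew, jint]
  have e1 : ((k : ℝ) + 1) * (1 / ((k : ℝ) + 1) - 4 * r / ((n : ℝ) + k + 2) + r ^ 2 / ((n : ℝ) + 1)) =
      1 - 4 * x ^ 2 * r / (1 + x ^ 2) + x ^ 2 * r ^ 2 := by
    rw [hxy]
    have h2 : (k : ℝ) + 1 ≠ 0 := by positivity
    have h3 : (n : ℝ) + 1 ≠ 0 := by positivity
    have h4 : (n : ℝ) + k + 2 ≠ 0 := by positivity
    have h5 : 1 + ((k : ℝ) + 1) / (n + 1) = ((n : ℝ) + k + 2) / (n + 1) := by
      field_simp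
      ring
    rw [h5]
    field_simp
  rw [e1]
  set z := x * r with hz
  have hz0 : 0 < z := by positivity
  have hwz : w = z ^ 2 := by rw [hw, hz]; ring
  have hz1 : z ≤ 1 := by
    by_contra hcon
    push Not at hcon
    nlinarith
  have hx2 : (0 : ℝ) < 1 + x ^ 2 := by positivity
  have e2 : 1 - 4 * x ^ 2 * r / (1 + x ^ 2) + x ^ 2 * r ^ 2 =
      (1 - z) ^ 2 + 2 * z * ((x - 1) ^ 2 / (1 + x ^ 2)) := by
    rw [hz]
    field_simp
    ring
  rw [e2]
  have h6 : (1 - z) ^ 2 ≤ 1 - w := by rw [hwz]; nlinarith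
  have h7 : 0 ≤ (x - 1) ^ 2 / (1 + x ^ 2) := by positivity
  have h8 : 2 * z * ((x - 1) ^ 2 / (1 + x ^ 2)) ≤ 2 * ((x - 1) ^ 2 / (1 + x ^ 2)) := by nlinarith
  have h9 : 16 / (n : ℝ) ^ 2 = 2 * (8 / (n : ℝ) ^ 2) := by ring
  rw [h9]
  linarith

end Pool.Agent.Helper23.KB
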