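import Pool.Agent.Helper23.KB.Defs

/-!
# KB: the first estimates for extremal pairs
-/

set_option autoImplicit false

namespace Pool.Agent.Helper23.KB

open Complex Metric Set MeasureTheory Real
open Pool.Agent.Helper21.IM (PS ps_exists ps_diff ps_summable parseval_sq ps_zero ps_sub ps_const
  ps_congr)

/-- mean value over a period -/
noncomputable def av (φ : ℝ → ℝ) : ℝ := (2 * π)⁻¹ * ∫ θ in (0 : ℝ)..2 * π, φ θ

theorem av_circ (Φ : ℂ → ℝ) (ρ : ℝ) : circleAverage Φ 0 ρ = av fun θ => Φ (circleMap 0 ρ θ) := by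
  rw [circleAverage_def, smul_eq_mul]
  rfl

theorem av_mono {φ ψ : ℝ → ℝ} (hφ : Continuous φ) (hψ : Continuous ψ) (h : ∀ θ, φ θ ≤ ψ θ) :
    av φ ≤ av ψ :=
  mul_le_mul_of_nonneg_left (intervalIntegral.integral_mono_on (by positivity)
    (hφ.intervalIntegrable _ _) (hψ.intervalIntegrable _ _) fun θ _ => h θ) (by positivity)

theorem av_add {φ ψ : ℝ → ℝ} (hφ : Continuous φ) (hψ : Continuous ψ) :
    av (fun θ => φ θ + ψ θ) = av φ + av ψ := by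
  unfold av
  rw [intervalIntegral.integral_add (hφ.intervalIntegrable _ _) (hψ.intervalIntegrable _ _), mul_add]

theorem av_sub {φ ψ : ℝ → ℝ} (hφ : Continuous φ) (hψ : Continuous ψ) :
    av (fun θ => φ θ - ψ θ) = av φ - av ψ := by
  unfold av
  rw [intervalIntegral.integral_sub (hφ.intervalIntegrable _ _) (hψ.intervalIntegrable _ _), mul_sub]

theorem av_mul (x : ℝ) (φ : ℝ → ℝ) : av (fun θ => x * φ θ) = x * av φ := by
  unfold av
  rw [intervalIntegral.integral_const_mul]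
  ring

theorem av_const (x : ℝ) : av (fun _ => x) = x := by
  unfold av
  rw [intervalIntegral.integral_const, smul_eq_mul]
  have : (2 * π : ℝ) ≠ 0 := by positivity
  field_simp
  ring

theorem cont_circ {f : ℂ → ℂ} (hf : DifferentiableOn ℂ f (ball 0 1)) {ρ : ℝ} (h0 : 0 ≤ ρ)
    (h1 : ρ < 1) : Continuous fun θ : ℝ => f (circleMap 0 ρ θ) := by
  refine hf.continuousOn.comp_continuous (continuous_circleMap 0 ρ) fun θ => ?_
  rw [mem_ball_zero_iff, norm_circleMap_zero, abs_of_nonneg h0]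
  exact h1

/-- mean square on the circle of radius `ρ` -/
noncomputable def ms (f : ℂ → ℂ) (ρ : ℝ) : ℝ := av fun θ => ‖f (circleMap 0 ρ θ)‖ ^ 2

theorem ms_series {f : ℂ → ℂ} {a : ℕ → ℂ} (hf : PS f a) {ρ : ℝ} (h0 : 0 ≤ ρ) (h1 : ρ < 1) :
    HasSum (fun k => ‖a k‖ ^ 2 * ρ ^ (2 * k)) (ms f ρ) := by
  have h := parseval_sq hf h0 h1
  rw [av_circ] at h
  exact h

/-- the annulus -/
theorem ann {c t : ℝ} (h1 : c < 1) {f g : ℂ → ℂ} (hf : Sph f) (hg : Sph g)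
    (h : Dom c t f g) : 1 - sq f c ≤ t ^ 2 * (1 - sq g c) := by
  have hsub : ball (0 : ℂ) c ⊆ ball 0 1 := ball_subset_ball h1.le
  have e : ∀ f : ℂ → ℂ, Sph f → 1 - sq f c = π⁻¹ * ∫ z in ball (0 : ℂ) 1 \ ball 0 c, ‖f z‖ ^ 2 := by
    intro f hf
    rw [setIntegral_sdiff measurableSet_ball hf.2.1 hsub, mul_sub, hf.2.2]
    rfl
  rw [e f hf, e g hg, mul_left_comm]
  refine mul_le_mul_of_nonneg_left ?_ (by positivity)
  rw [← integral_const_mul]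
  refine setIntegral_mono_on (hf.2.1.mono_set sdiff_subset)
    ((hg.2.1.mono_set sdiff_subset).const_mul _) (measurableSet_ball.diff measurableSet_ball)
    fun z hz => ?_
  have hz1 : ‖z‖ < 1 := by simpa using hz.1
  have hz2 : c ≤ ‖z‖ := by simpa using hz.2
  rw [← mul_pow]
  exact pow_le_pow_left₀ (norm_nonneg _) (h z hz2 hz1) 2

theorem ms_le {g : ℂ → ℂ} (hg : Sph g) {c S : ℝ} (h0 : 0 ≤ c) (h1 : c < 1)
    (hS : ∀ k : ℕ, ((k : ℝ) + 1) * c ^ (2 * k) ≤ S) : ms g c ≤ S := by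
  obtain ⟨b, hb⟩ := ps_exists hg.1
  have h2 := area_series hb zero_le_one le_rfl hg.2.1
  have h3 : sq g 1 = 1 := hg.2.2
  rw [h3] at h2
  have h4 := h2.mul_left S
  rw [mul_one] at h4
  refine hasSum_le (fun k => ?_) (ms_series hb h0 h1) h4
  rw [one_pow]
  have h5 : (0 : ℝ) < (k : ℝ) + 1 := by positivity
  have h6 := mul_le_mul_of_nonneg_left (hS k) (show 0 ≤ ‖b k‖ ^ 2 * (1 / ((k : ℝ) + 1)) by positivity)
  calc ‖b k‖ ^ 2 * c ^ (2 * k) = ‖b k‖ ^ 2 * (1 / ((k : ℝ) + 1)) * (((k : ℝ) + 1) * c ^ (2 * k)) := by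
        field_simp
    _ ≤ _ := h6
    _ = _ := by ring

section
variable {c : ℝ} {f g : ℂ → ℂ}

/-- most of the mass of `f` lies in the small disc -/
theorem sq_ge (_h0 : 0 < c) (h1 : c < 1) (h : Ext c f g) : 1 - KF c ^ 2 ≤ sq f c := by
  have h2 := ann h1 h.1 h.2.1 h.2.2
  have h3 : 0 ≤ sq g c := mul_nonneg (by positivity) (integral_nonneg fun z => by positivity)
  nlinarith [sq_nonneg (KF c)]

theorem ms_f_le (h0 : 0 < c) (h1 : c < 1) (h : Ext c f g) : ms f c ≤ KF c ^ 2 * ms g c := by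
  have hf := cont_circ h.1.1 h0.le h1
  have hg := cont_circ h.2.1.1 h0.le h1
  unfold ms
  rw [← av_mul]
  refine av_mono (hf.norm.pow 2) (continuous_const.mul (hg.norm.pow 2)) fun θ => ?_
  rw [← mul_pow]
  have hn : ‖circleMap 0 c θ‖ = c := by rw [norm_circleMap_zero, abs_of_pos h0]
  exact pow_le_pow_left₀ (norm_nonneg _) (h.2.2 _ hn.ge (by rw [hn]; exact h1)) 2

theorem kms_le (h0 : 0 < c) (h1 : c < 1) (h : Ext c f g) : KF c ^ 2 * ms g c ≤ 1 := by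
  obtain ⟨b, hb⟩ := ps_exists h.2.1.1
  have h2 := area_series hb zero_le_one le_rfl h.2.1.2.1
  have h3 : sq g 1 = 1 := h.2.1.2.2
  rw [h3] at h2
  refine hasSum_le (fun k => ?_) ((ms_series hb h0.le h1).mul_left (KF c ^ 2)) h2
  rw [one_pow]
  have h5 : (0 : ℝ) < (k : ℝ) + 1 := by positivity
  have h6 := mul_le_mul_of_nonneg_left (kf_mono_le h0 k)
    (show 0 ≤ ‖b k‖ ^ 2 * (1 / ((k : ℝ) + 1)) by positivity)
  calc KF c ^ 2 * (‖b k‖ ^ 2 * c ^ (2 * k)) =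
      ‖b k‖ ^ 2 * (1 / ((k : ℝ) + 1)) * (KF c ^ 2 * (((k : ℝ) + 1) * c ^ (2 * k))) := by
        field_simp
    _ ≤ _ := h6
    _ = _ := by ring

/-- the bound from below for Korenblum's function -/
theorem kf_low (h0 : 0 < c) (h1 : c < 1) (h : Ext c f g) {S : ℝ}
    (hS : ∀ k : ℕ, ((k : ℝ) + 1) * c ^ (2 * k) ≤ S) : 1 ≤ KF c ^ 2 * (1 + c ^ 2 * S) := by
  obtain ⟨a, ha⟩ := ps_exists h.1.1
  have h2 : sq f c ≤ c ^ 2 * ms f c := by
    refine hasSum_le (fun k => ?_) (area_series ha h0.le h1.le h.1.2.1)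
      ((ms_series ha h0.le h1).mul_left (c ^ 2))
    have h5 : (1 : ℝ) ≤ (k : ℝ) + 1 := by
      have := Nat.cast_nonneg (α := ℝ) k
      linarith
    have h6 : c ^ (2 * k + 2) / ((k : ℝ) + 1) ≤ c ^ (2 * k + 2) :=
      div_le_self (by positivity) h5
    calc ‖a k‖ ^ 2 * (c ^ (2 * k + 2) / ((k : ℝ) + 1)) ≤ ‖a k‖ ^ 2 * c ^ (2 * k + 2) := by gcongr
      _ = _ := by ring
  have h3 := sq_ge h0 h1 h
  have h4 := ms_f_le h0 h1 h
  have h5 := ms_le h.2.1 h0.le h1 hS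
  have h6 : c ^ 2 * ms f c ≤ c ^ 2 * (KF c ^ 2 * S) := by
    refine mul_le_mul_of_nonneg_left (h4.trans ?_) (by positivity)
    exact mul_le_mul_of_nonneg_left h5 (by positivity)
  nlinarith

/-- the key defects -/
theorem defects (h0 : 0 < c) (h1 : c < 1) (h : Ext c f g) :
    (c ^ 2 * ms f c - sq f c) + c ^ 2 * (1 - KF c ^ 2 * ms g c) +
      c ^ 2 * (KF c ^ 2 * ms g c - ms f c) ≤ KF c ^ 2 := by
  have h3 := sq_ge h0 h1 h
  nlinarith [mul_pos h0 h0]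

theorem tail_f (h0 : 0 < c) (h1 : c < 1) (h : Ext c f g) {a : ℕ → ℂ} (ha : PS f a) :
    1 - ‖a 0‖ ^ 2 ≤ 2 * KF c ^ 2 := by
  have s1 := area_series ha zero_le_one le_rfl h.1.2.1
  have e1 : sq f 1 = 1 := h.1.2.2
  rw [e1] at s1
  have s2 := area_series ha h0.le h1.le h.1.2.1
  have s3 := (ms_series ha h0.le h1).mul_left (c ^ 2)
  have s4 := s1.sub (hasSum_ite_eq 0 (‖a 0‖ ^ 2))
  have s5 := (s3.sub s2).add (s1.sub s2)
  have h2 : 1 - ‖a 0‖ ^ 2 ≤ (c ^ 2 * ms f c - sq f c) + (1 - sq f c) := by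
    refine hasSum_le (fun k => ?_) s4 s5
    show ‖a k‖ ^ 2 * (1 ^ (2 * k + 2) / ((k : ℝ) + 1)) - (if k = 0 then ‖a 0‖ ^ 2 else 0) ≤
      (c ^ 2 * (‖a k‖ ^ 2 * c ^ (2 * k)) - ‖a k‖ ^ 2 * (c ^ (2 * k + 2) / ((k : ℝ) + 1))) +
      (‖a k‖ ^ 2 * (1 ^ (2 * k + 2) / ((k : ℝ) + 1)) - ‖a k‖ ^ 2 * (c ^ (2 * k + 2) / ((k : ℝ) + 1)))
    rw [one_pow]
    have hck : c ^ (2 * k + 2) ≤ 1 := pow_le_one₀ h0.le h1.le
    have hck0 : 0 ≤ c ^ (2 * k + 2) := by positivity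
    split_ifs with hk
    · subst hk
      have : 0 ≤ ‖a 0‖ ^ 2 := by positivity
      norm_num
      nlinarith [pow_le_one₀ h0.le h1.le (n := 2)]
    · have hk1 : (1 : ℝ) ≤ k := by exact_mod_cast Nat.one_le_iff_ne_zero.2 hk
      have h5 : (0 : ℝ) < (k : ℝ) + 1 := by positivity
      have h6 : 2 * (c ^ (2 * k + 2) / ((k : ℝ) + 1)) ≤ c ^ (2 * k + 2) := by
        rw [← mul_div_assoc, div_le_iff₀ h5]
        nlinarith
      have h7 : c ^ 2 * (‖a k‖ ^ 2 * c ^ (2 * k)) = ‖a k‖ ^ 2 * c ^ (2 * k + 2) := by ring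
      rw [h7]
      nlinarith [mul_le_mul_of_nonneg_left h6 (sq_nonneg ‖a k‖)]
  have h3 := sq_ge h0 h1 h
  have h4 := defects h0 h1 h
  have h5 := ms_f_le h0 h1 h
  have h6 := kms_le h0 h1 h
  have h7 : 0 ≤ c ^ 2 * (1 - KF c ^ 2 * ms g c) := mul_nonneg (by positivity) (by linarith)
  have h8 : 0 ≤ c ^ 2 * (KF c ^ 2 * ms g c - ms f c) := mul_nonneg (by positivity) (by linarith)
  linarith

theorem ps_sub0 {a : ℕ → ℂ} (ha : PS f a) :
    PS (fun z => f z - a 0) (fun m => if m = 0 then 0 else a m) := by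
  have h := ps_sub ha (ps_const (a 0))
  have e : (fun m => a m - if m = 0 then a 0 else 0) = fun m => if m = 0 then 0 else a m := by
    funext m
    split_ifs with hm
    · rw [hm, sub_self]
    · rw [sub_zero]
  have e2 : ∀ z ∈ ball (0 : ℂ) 1, HasSum (fun m => (if m = 0 then 0 else a m) * z ^ m) (f z - a 0) := by
    intro z hz
    have h3 := h z hz
    have h4 : (fun m => (a m - if m = 0 then a 0 else 0) * z ^ m) =
        fun m => (if m = 0 then 0 else a m) * z ^ m := by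
      funext m
      exact congrArg (· * z ^ m) (congrFun e m)
    exact h4 ▸ h3
  exact e2

theorem tail_ms (h0 : 0 < c) (h1 : c < 1) (hf : Sph f) {a : ℕ → ℂ} (ha : PS f a) :
    c ^ 2 * ms (fun z => f z - a 0) c ≤ 2 * (c ^ 2 * ms f c - sq f c) := by
  have s2 := area_series ha h0.le h1.le hf.2.1
  have s3 := (ms_series ha h0.le h1).mul_left (c ^ 2)
  have s4 := (ms_series (ps_sub0 ha) h0.le h1).mul_left (c ^ 2)
  refine hasSum_le (fun k => ?_) s4 ((s3.sub s2).mul_left 2)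
  show c ^ 2 * (‖(if k = 0 then 0 else a k)‖ ^ 2 * c ^ (2 * k)) ≤
    2 * (c ^ 2 * (‖a k‖ ^ 2 * c ^ (2 * k)) - ‖a k‖ ^ 2 * (c ^ (2 * k + 2) / ((k : ℝ) + 1)))
  split_ifs with hk
  · subst hk
    norm_num
    nlinarith [sq_nonneg ‖a 0‖, sq_nonneg c]
  · have hk1 : (1 : ℝ) ≤ k := by exact_mod_cast Nat.one_le_iff_ne_zero.2 hk
    have h5 : (0 : ℝ) < (k : ℝ) + 1 := by positivity
    have h6 : 2 * (c ^ (2 * k + 2) / ((k : ℝ) + 1)) ≤ c ^ (2 * k + 2) := by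
      rw [← mul_div_assoc, div_le_iff₀ h5]
      nlinarith [show 0 ≤ c ^ (2 * k + 2) by positivity]
    have h7 : c ^ 2 * (‖a k‖ ^ 2 * c ^ (2 * k)) = ‖a k‖ ^ 2 * c ^ (2 * k + 2) := by ring
    rw [h7]
    nlinarith [mul_le_mul_of_nonneg_left h6 (sq_nonneg ‖a k‖)]

/-- on the circle of radius `c` the modulus of `g` is nearly constant -/
theorem circ_g (h0 : 0 < c) (h1 : c < 1) (h : Ext c f g) :
    c ^ 2 * av (fun θ => (KF c * ‖g (circleMap 0 c θ)‖ - 1) ^ 2) ≤ 12 * KF c ^ 2 := by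
  obtain ⟨a, ha⟩ := ps_exists h.1.1
  have hfc := cont_circ h.1.1 h0.le h1
  have hgc := cont_circ h.2.1.1 h0.le h1
  have c1 : Continuous fun θ : ℝ => ‖f (circleMap 0 c θ)‖ ^ 2 := hfc.norm.pow 2
  have c2 : Continuous fun θ : ℝ => KF c ^ 2 * ‖g (circleMap 0 c θ)‖ ^ 2 :=
    continuous_const.mul (hgc.norm.pow 2)
  have c3 : Continuous fun θ : ℝ => ‖f (circleMap 0 c θ) - a 0‖ ^ 2 :=
    (hfc.sub continuous_const).norm.pow 2
  have c4 : Continuous fun θ : ℝ => (KF c * ‖g (circleMap 0 c θ)‖ - 1) ^ 2 :=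
    ((continuous_const.mul hgc.norm).sub continuous_const).pow 2
  have c5 : Continuous fun θ : ℝ => KF c ^ 2 * ‖g (circleMap 0 c θ)‖ ^ 2 -
      ‖f (circleMap 0 c θ)‖ ^ 2 := c2.sub c1
  have c6 : Continuous fun θ : ℝ => KF c ^ 2 * ‖g (circleMap 0 c θ)‖ ^ 2 -
      ‖f (circleMap 0 c θ)‖ ^ 2 + ‖f (circleMap 0 c θ) - a 0‖ ^ 2 := c5.add c3
  have h2 : av (fun θ => (KF c * ‖g (circleMap 0 c θ)‖ - 1) ^ 2) ≤
      3 * ((KF c ^ 2 * ms g c - ms f c) + ms (fun z => f z - a 0) c + (1 - ‖a 0‖ ^ 2)) := by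
    have e : 3 * ((KF c ^ 2 * ms g c - ms f c) + ms (fun z => f z - a 0) c + (1 - ‖a 0‖ ^ 2)) =
        av (fun θ => 3 * (((KF c ^ 2 * ‖g (circleMap 0 c θ)‖ ^ 2 - ‖f (circleMap 0 c θ)‖ ^ 2) +
          ‖f (circleMap 0 c θ) - a 0‖ ^ 2) + (1 - ‖a 0‖ ^ 2))) := by
      rw [av_mul, av_add c6 continuous_const, av_add c5 c3, av_sub c2 c1, av_mul, av_const]
      rfl
    rw [e]
    refine av_mono c4 (continuous_const.mul (c6.add continuous_const))
      fun θ => ?_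
    have hn : ‖circleMap 0 c θ‖ = c := by rw [norm_circleMap_zero, abs_of_pos h0]
    have hd := h.2.2 _ hn.ge (by rw [hn]; exact h1)
    set x := KF c * ‖g (circleMap 0 c θ)‖ with hx
    set y := ‖f (circleMap 0 c θ)‖ with hy
    have hy0 : 0 ≤ y := norm_nonneg _
    have h3 : (x - y) ^ 2 ≤ x ^ 2 - y ^ 2 := by nlinarith
    have h4 : (y - ‖a 0‖) ^ 2 ≤ ‖f (circleMap 0 c θ) - a 0‖ ^ 2 := by
      rw [← sq_abs (y - ‖a 0‖)]
      exact pow_le_pow_left₀ (abs_nonneg _) (abs_norm_sub_norm_le _ _) 2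
    have ha1 : ‖a 0‖ ≤ 1 := by
      have s1 := area_series ha zero_le_one le_rfl h.1.2.1
      have e1 : sq f 1 = 1 := h.1.2.2
      rw [e1] at s1
      have h5 := le_hasSum s1 0 fun k _ => by positivity
      norm_num at h5
      nlinarith [norm_nonneg (a 0)]
    have h6 : (‖a 0‖ - 1) ^ 2 ≤ 1 - ‖a 0‖ ^ 2 := by nlinarith [norm_nonneg (a 0)]
    have h7 : KF c ^ 2 * ‖g (circleMap 0 c θ)‖ ^ 2 = x ^ 2 := by rw [hx, mul_pow]
    rw [h7]
    nlinarith [sq_nonneg ((x - y) - (y - ‖a 0‖)), sq_nonneg ((x - y) - (‖a 0‖ - 1)),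
      sq_nonneg ((y - ‖a 0‖) - (‖a 0‖ - 1))]
  have h3 := tail_ms h0 h1 h.1 ha
  have h4 := tail_f h0 h1 h ha
  have h5 := defects h0 h1 h
  have h6 := kms_le h0 h1 h
  have h7 : 0 ≤ c ^ 2 * (1 - KF c ^ 2 * ms g c) := mul_nonneg (by positivity) (by linarith)
  have h8 := ms_f_le h0 h1 h
  have h9 : 0 ≤ c ^ 2 * (KF c ^ 2 * ms g c - ms f c) := mul_nonneg (by positivity) (by linarith)
  have hc2 : 0 < c ^ 2 := by positivity
  have hc1 : c ^ 2 ≤ 1 := pow_le_one₀ h0.le h1.le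
  have h10 := mul_le_mul_of_nonneg_left h2 hc2.le
  have h11 : c ^ 2 * (1 - ‖a 0‖ ^ 2) ≤ 2 * KF c ^ 2 := by
    calc c ^ 2 * (1 - ‖a 0‖ ^ 2) ≤ c ^ 2 * (2 * KF c ^ 2) := mul_le_mul_of_nonneg_left h4 hc2.le
      _ ≤ 1 * (2 * KF c ^ 2) := mul_le_mul_of_nonneg_right hc1 (by positivity)
      _ = _ := one_mul _
  nlinarith

end

end Pool.Agent.Helper23.KB
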