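import Pool.Agent.Helper23.KB.Shape1
import Pool.Agent.Helper23.KB.Num

/-!
# KB: the shape of the second function
-/

set_option autoImplicit false

namespace Pool.Agent.Helper23.KB

open Complex Metric Set MeasureTheory Real
open Pool.Agent.Helper21.IM (PS ps_exists ps_diff ps_summable parseval_sq ps_zero ps_sub ps_const
  ps_congr ps_smul)

theorem ps_scale {g : ℂ → ℂ} {b : ℕ → ℂ} (hb : PS g b) {t : ℝ} (h0 : 0 ≤ t) (h1 : t ≤ 1) :
    PS (fun z => g ((t : ℂ) * z)) (fun k => b k * (t : ℂ) ^ k) := by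
  intro z hz
  rw [mem_ball_zero_iff] at hz
  have h2 : (t : ℂ) * z ∈ ball (0 : ℂ) 1 := by
    rw [mem_ball_zero_iff, norm_mul, Complex.norm_real, Real.norm_eq_abs, abs_of_nonneg h0]
    nlinarith [norm_nonneg z]
  have h3 := hb _ h2
  have h4 : (fun k => b k * ((t : ℂ) * z) ^ k) = fun k => b k * (t : ℂ) ^ k * z ^ k := by
    funext k
    rw [mul_pow, mul_assoc]
  rw [h4] at h3
  exact h3

/-- mean square of the difference on two circles -/
theorem diff_series {g : ℂ → ℂ} {b : ℕ → ℂ} (hb : PS g b) {c ρ : ℝ} (h0 : 0 < c) (h1 : c < 1)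
    (hρ0 : 0 < ρ) (hρ1 : ρ < 1) (n : ℕ) :
    HasSum (fun k => ‖b k‖ ^ 2 * (ρ ^ k - ρ ^ n * (c ^ k / c ^ n)) ^ 2)
      (av fun θ => ‖g (circleMap 0 ρ θ) - (((ρ / c) ^ n : ℝ) : ℂ) * g (circleMap 0 c θ)‖ ^ 2) := by
  obtain ⟨s, hs, hs1⟩ := exists_between (max_lt hρ1 h1)
  have hsρ : ρ < s := (le_max_left _ _).trans_lt hs
  have hsc : c < s := (le_max_right _ _).trans_lt hs
  have hs0 : 0 < s := hρ0.trans hsρ
  have h2 := ps_sub (ps_scale hb (t := ρ / s) (by positivity) ((div_le_one hs0).2 hsρ.le))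
    (ps_smul ((((ρ / c) ^ n : ℝ) : ℂ)) (ps_scale hb (t := c / s) (by positivity)
      ((div_le_one hs0).2 hsc.le)))
  have h3 := ms_series h2 hs0.le hs1
  have e1 : ∀ t θ : ℝ, ((t / s : ℝ) : ℂ) * circleMap 0 s θ = circleMap 0 t θ := by
    intro t θ
    have hs2 : (s : ℂ) ≠ 0 := by exact_mod_cast hs0.ne'
    rw [circleMap, circleMap, zero_add, zero_add]
    push_cast
    field_simp
  have e2 : ms (fun z => g ((((ρ / s : ℝ)) : ℂ) * z) -
      (((ρ / c) ^ n : ℝ) : ℂ) * g ((((c / s : ℝ)) : ℂ) * z)) s =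
      av fun θ => ‖g (circleMap 0 ρ θ) - (((ρ / c) ^ n : ℝ) : ℂ) * g (circleMap 0 c θ)‖ ^ 2 := by
    unfold ms
    congr 1
    funext θ
    show ‖g (((ρ / s : ℝ) : ℂ) * circleMap 0 s θ) -
      (((ρ / c) ^ n : ℝ) : ℂ) * g (((c / s : ℝ) : ℂ) * circleMap 0 s θ)‖ ^ 2 = _
    rw [e1, e1]
  have e3 : (fun k => ‖b k * (((ρ / s : ℝ)) : ℂ) ^ k -
      (((ρ / c) ^ n : ℝ) : ℂ) * (b k * (((c / s : ℝ)) : ℂ) ^ k)‖ ^ 2 * s ^ (2 * k)) =
      fun k => ‖b k‖ ^ 2 * (ρ ^ k - ρ ^ n * (c ^ k / c ^ n)) ^ 2 := by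
    funext k
    have e4 : b k * (((ρ / s : ℝ)) : ℂ) ^ k -
        (((ρ / c) ^ n : ℝ) : ℂ) * (b k * (((c / s : ℝ)) : ℂ) ^ k) =
        b k * (((ρ ^ k - ρ ^ n * (c ^ k / c ^ n)) / s ^ k : ℝ) : ℂ) := by
      push_cast
      have hs2 : (s : ℂ) ≠ 0 := by exact_mod_cast hs0.ne'
      have hc2 : (c : ℂ) ≠ 0 := by exact_mod_cast h0.ne'
      simp only [div_pow]
      field_simp
    rw [e4, norm_mul, Complex.norm_real, Real.norm_eq_abs, mul_pow, sq_abs, div_pow, ← pow_mul,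
      mul_comm k 2]
    have : s ^ (2 * k) ≠ 0 := by positivity
    field_simp
  rw [← e2, ← e3]
  exact h3

section
variable {c : ℝ} {f g : ℂ → ℂ}

theorem kf_pos (h0 : 0 < c) (h1 : c < 1) (h : Ext c f g) {S : ℝ}
    (hS : ∀ k : ℕ, ((k : ℝ) + 1) * c ^ (2 * k) ≤ S) : 0 < KF c := by
  have h2 := kf_low h0 h1 h hS
  rcases (kf_nonneg c).lt_or_eq with h3 | h3
  · exact h3
  · rw [← h3] at h2
    norm_num at h2

/-- the circle of radius `ρ` -/
theorem circ_rho (h0 : 0 < c) (h1 : c < 1) (h : Ext c f g) {n : ℕ}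
    (hmax : ∀ k : ℕ, ((k : ℝ) + 1) * c ^ (2 * k) ≤ ((n : ℝ) + 1) * c ^ (2 * n)) {ρ : ℝ}
    (hρ0 : 0 < ρ) (hρ1 : ρ < 1) :
    circleAverage (fun z => (‖g z‖ - √((n : ℝ) + 1) * ‖z‖ ^ n) ^ 2) 0 ρ ≤
      3 * av (fun θ => ‖g (circleMap 0 ρ θ) - (((ρ / c) ^ n : ℝ) : ℂ) * g (circleMap 0 c θ)‖ ^ 2) +
        3 * (12 / c ^ 2 + 1) / c ^ (2 * n) * ρ ^ (2 * n) := by
  have hF := kf_pos h0 h1 h hmax
  set F := KF c with hFdef
  set S := ((n : ℝ) + 1) * c ^ (2 * n) with hS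
  have hS0 : 0 < S := by positivity
  have hn1 : (0 : ℝ) < (n : ℝ) + 1 := by positivity
  have hsq : √((n : ℝ) + 1) * c ^ n = √S := by
    rw [hS, Real.sqrt_mul hn1.le, mul_comm 2 n, pow_mul, Real.sqrt_sq (by positivity)]
  have hFS : F ^ 2 * S ≤ 1 := kf_mono_le h0 n
  have hlow := kf_low h0 h1 h hmax
  have hc1 : c ^ 2 ≤ 1 := pow_le_one₀ h0.le h1.le
  have k1 : (1 / F - √S) ^ 2 ≤ 1 := by
    have h2 : √S ≤ 1 / F := by
      rw [le_div_iff₀ hF]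
      have h3 : (√S * F) ^ 2 ≤ 1 := by
        rw [mul_pow, Real.sq_sqrt hS0.le]
        linarith
      nlinarith [Real.sqrt_nonneg S]
    have h3 : (1 / F) ^ 2 ≤ 1 + S := by
      rw [div_pow, one_pow, div_le_iff₀ (by positivity)]
      nlinarith [mul_pos hS0 (show 0 < F ^ 2 by positivity)]
    have h4 := Real.sq_sqrt hS0.le
    nlinarith [Real.sqrt_nonneg S]
  have hρc := cont_circ h.2.1.1 hρ0.le hρ1
  have hgc := cont_circ h.2.1.1 h0.le h1
  have k2 : av (fun θ => (‖g (circleMap 0 c θ)‖ - 1 / F) ^ 2) ≤ 12 / c ^ 2 := by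
    have h2 := circ_g h0 h1 h
    have h3 : av (fun θ => (F * ‖g (circleMap 0 c θ)‖ - 1) ^ 2) =
        F ^ 2 * av (fun θ => (‖g (circleMap 0 c θ)‖ - 1 / F) ^ 2) := by
      rw [← av_mul]
      congr 1
      funext θ
      field_simp
    rw [← hFdef, h3] at h2
    rw [le_div_iff₀ (by positivity)]
    have h4 : F ^ 2 * (c ^ 2 * av (fun θ => (‖g (circleMap 0 c θ)‖ - 1 / F) ^ 2)) ≤ F ^ 2 * 12 := by
      linarith
    have h5 := le_of_mul_le_mul_left h4 (by positivity)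
    linarith
  set t := (ρ / c) ^ n with ht
  have ht0 : 0 < t := by positivity
  have d1 : Continuous fun θ : ℝ =>
      ‖g (circleMap 0 ρ θ) - ((t : ℝ) : ℂ) * g (circleMap 0 c θ)‖ ^ 2 :=
    (hρc.sub (continuous_const.mul hgc)).norm.pow 2
  have d2 : Continuous fun θ : ℝ => (‖g (circleMap 0 c θ)‖ - 1 / F) ^ 2 :=
    (hgc.norm.sub continuous_const).pow 2
  have d3 : Continuous fun θ : ℝ => t ^ 2 * (‖g (circleMap 0 c θ)‖ - 1 / F) ^ 2 :=
    continuous_const.mul d2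
  have d4 : Continuous fun θ : ℝ =>
      ‖g (circleMap 0 ρ θ) - ((t : ℝ) : ℂ) * g (circleMap 0 c θ)‖ ^ 2 +
        t ^ 2 * (‖g (circleMap 0 c θ)‖ - 1 / F) ^ 2 := d1.add d3
  have d5 : Continuous fun θ : ℝ =>
      (‖g (circleMap 0 ρ θ)‖ - √((n : ℝ) + 1) * ‖circleMap 0 ρ θ‖ ^ n) ^ 2 :=
    (hρc.norm.sub (continuous_const.mul ((continuous_circleMap 0 ρ).norm.pow n))).pow 2
  have k3 : circleAverage (fun z => (‖g z‖ - √((n : ℝ) + 1) * ‖z‖ ^ n) ^ 2) 0 ρ ≤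
      3 * (av (fun θ => ‖g (circleMap 0 ρ θ) - ((t : ℝ) : ℂ) * g (circleMap 0 c θ)‖ ^ 2) +
        t ^ 2 * av (fun θ => (‖g (circleMap 0 c θ)‖ - 1 / F) ^ 2) + t ^ 2 * (1 / F - √S) ^ 2) := by
    have e : 3 * (av (fun θ => ‖g (circleMap 0 ρ θ) - ((t : ℝ) : ℂ) * g (circleMap 0 c θ)‖ ^ 2) +
        t ^ 2 * av (fun θ => (‖g (circleMap 0 c θ)‖ - 1 / F) ^ 2) + t ^ 2 * (1 / F - √S) ^ 2) =
        av (fun θ => 3 * ((‖g (circleMap 0 ρ θ) - ((t : ℝ) : ℂ) * g (circleMap 0 c θ)‖ ^ 2 +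
          t ^ 2 * (‖g (circleMap 0 c θ)‖ - 1 / F) ^ 2) + t ^ 2 * (1 / F - √S) ^ 2)) := by
      rw [av_mul, av_add d4 continuous_const, av_add d1 d3, av_mul, av_const]
    rw [e, av_circ]
    refine av_mono d5 (continuous_const.mul (d4.add continuous_const)) fun θ => ?_
    have hn : ‖circleMap 0 ρ θ‖ = ρ := by rw [norm_circleMap_zero, abs_of_pos hρ0]
    rw [hn]
    set X := ‖g (circleMap 0 ρ θ)‖ with hX
    set Y := ‖g (circleMap 0 c θ)‖ with hY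
    have h5 : (X - t * Y) ^ 2 ≤ ‖g (circleMap 0 ρ θ) - ((t : ℝ) : ℂ) * g (circleMap 0 c θ)‖ ^ 2 := by
      have h6 := abs_norm_sub_norm_le (g (circleMap 0 ρ θ)) (((t : ℝ) : ℂ) * g (circleMap 0 c θ))
      rw [norm_mul, Complex.norm_real, Real.norm_eq_abs, abs_of_pos ht0] at h6
      rw [← sq_abs (X - t * Y)]
      exact pow_le_pow_left₀ (abs_nonneg _) h6 2
    have h6 : √((n : ℝ) + 1) * ρ ^ n = t * √S := by
      rw [← hsq, ht, div_pow]
      field_simp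
    rw [h6]
    have h7 : X - t * √S = (X - t * Y) + t * (Y - 1 / F) + t * (1 / F - √S) := by ring
    rw [h7]
    nlinarith [sq_nonneg ((X - t * Y) - t * (Y - 1 / F)),
      sq_nonneg ((X - t * Y) - t * (1 / F - √S)),
      sq_nonneg (t * (Y - 1 / F) - t * (1 / F - √S))]
  have k4 : t ^ 2 = ρ ^ (2 * n) / c ^ (2 * n) := by
    rw [ht, ← pow_mul, mul_comm n 2, div_pow]
  have k5 : t ^ 2 * av (fun θ => (‖g (circleMap 0 c θ)‖ - 1 / F) ^ 2) ≤ t ^ 2 * (12 / c ^ 2) :=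
    mul_le_mul_of_nonneg_left k2 (by positivity)
  have k6 : t ^ 2 * (1 / F - √S) ^ 2 ≤ t ^ 2 * 1 := mul_le_mul_of_nonneg_left k1 (by positivity)
  have k7 : 3 * (12 / c ^ 2 + 1) / c ^ (2 * n) * ρ ^ (2 * n) = 3 * (t ^ 2 * (12 / c ^ 2) + t ^ 2 * 1) := by
    rw [k4]
    field_simp
  rw [k7]
  linarith

/-- the second function of an extremal pair is close to a monomial in modulus -/
theorem area_g (h0 : 0 < c) (h1 : c < 1) (h : Ext c f g) {n : ℕ} (hn : 1 ≤ n)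
    (hlo : (n : ℝ) / (n + 1) ≤ c ^ 2) (hhi : c ^ 2 ≤ ((n : ℝ) + 1) / (n + 2)) :
    π⁻¹ * ∫ z in ball (0 : ℂ) 1, (‖g z‖ - √((n : ℝ) + 1) * ‖z‖ ^ n) ^ 2 ≤
      60 / (c ^ 2 * (((n : ℝ) + 1) * c ^ (2 * n))) + 48 / (n : ℝ) ^ 2 := by
  have hmax := smax h0 hlo hhi
  obtain ⟨b, hb⟩ := ps_exists h.2.1.1
  have hn0 : (0 : ℝ) < n := by exact_mod_cast hn
  have hn1 : (0 : ℝ) < (n : ℝ) + 1 := by positivity
  set S := ((n : ℝ) + 1) * c ^ (2 * n) with hS
  have hS0 : 0 < S := by positivity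
  have hgc : ContinuousOn g (ball 0 1) := h.2.1.1.continuousOn
  have hΦc : ContinuousOn (fun z : ℂ => (‖g z‖ - √((n : ℝ) + 1) * ‖z‖ ^ n) ^ 2) (ball 0 1) :=
    (hgc.norm.sub (by fun_prop)).pow 2
  have hΦi : IntegrableOn (fun z : ℂ => (‖g z‖ - √((n : ℝ) + 1) * ‖z‖ ^ n) ^ 2) (ball 0 1) := by
    have hd : IntegrableOn (fun z : ℂ => ‖g z‖ ^ 2 + (√((n : ℝ) + 1) * ‖z‖ ^ n) ^ 2) (ball 0 1) :=
      h.2.1.2.1.add (int_cont (by fun_prop))
    refine hd.mono' (hΦc.aestronglyMeasurable measurableSet_ball) ?_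
    refine Filter.Eventually.of_forall fun z => ?_
    rw [Real.norm_eq_abs, abs_of_nonneg (by positivity)]
    have := mul_nonneg (norm_nonneg (g z)) (show 0 ≤ √((n : ℝ) + 1) * ‖z‖ ^ n by positivity)
    nlinarith
  set E := 3 * (12 / c ^ 2 + 1) / c ^ (2 * n) with hE
  have hE0 : 0 ≤ E := by positivity
  -- the series
  have hB := area_series hb zero_le_one le_rfl h.2.1.2.1
  have eB : sq g 1 = 1 := h.2.1.2.2
  rw [eB] at hB
  have hM := (ms_series hb h0.le h1).mul_left (1 / S)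
  have hser : HasSum (fun k : ℕ => ‖b k‖ ^ 2 * (1 ^ (2 * k + 2) / ((k : ℝ) + 1)) *
      (3 * (7 * (1 - ((k : ℝ) + 1) * c ^ (2 * k) / S) + 16 / (n : ℝ) ^ 2)))
      (3 * (7 * (1 - 1 / S * ms g c) + 16 / (n : ℝ) ^ 2)) := by
    have h2 := (((hB.sub hM).mul_left 7).add (hB.mul_right (16 / (n : ℝ) ^ 2))).mul_left 3
    rw [one_mul] at h2
    have e : (fun k : ℕ => 3 * (7 * (‖b k‖ ^ 2 * (1 ^ (2 * k + 2) / ((k : ℝ) + 1)) -
        1 / S * (‖b k‖ ^ 2 * c ^ (2 * k))) +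
        ‖b k‖ ^ 2 * (1 ^ (2 * k + 2) / ((k : ℝ) + 1)) * (16 / (n : ℝ) ^ 2))) =
        fun k : ℕ => ‖b k‖ ^ 2 * (1 ^ (2 * k + 2) / ((k : ℝ) + 1)) *
      (3 * (7 * (1 - ((k : ℝ) + 1) * c ^ (2 * k) / S) + 16 / (n : ℝ) ^ 2)) := by
      funext k
      rw [one_pow]
      have : (k : ℝ) + 1 ≠ 0 := by positivity
      field_simp
    rw [← e]
    exact h2
  have hser0 : ∀ k : ℕ, ‖b k‖ ^ 2 * (3 * ∫ ρ in (0 : ℝ)..1, 2 * ρ * (ρ ^ k - ρ ^ n * (c ^ k / c ^ n)) ^ 2) ≤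
      ‖b k‖ ^ 2 * (1 ^ (2 * k + 2) / ((k : ℝ) + 1)) *
      (3 * (7 * (1 - ((k : ℝ) + 1) * c ^ (2 * k) / S) + 16 / (n : ℝ) ^ 2)) := by
    intro k
    have h2 := tk hn h0 hlo hhi k
    have hk : (0 : ℝ) < (k : ℝ) + 1 := by positivity
    rw [one_pow, mul_assoc]
    refine mul_le_mul_of_nonneg_left ?_ (by positivity)
    rw [div_mul_eq_mul_div, one_mul, le_div_iff₀ hk]
    linarith
  -- the integral
  have hmain : ENNReal.ofReal (∫ z in ball (0 : ℂ) 1, (‖g z‖ - √((n : ℝ) + 1) * ‖z‖ ^ n) ^ 2) ≤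
      ENNReal.ofReal (π * (3 * (7 * (1 - 1 / S * ms g c) + 16 / (n : ℝ) ^ 2) + E / (n + 1))) := by
    rw [ofReal_integral_eq_lintegral_ofReal hΦi (Filter.Eventually.of_forall fun z => by positivity),
      polar hΦc (fun z _ => by positivity) le_rfl]
    have h2 : ∀ ρ ∈ Ioo (0 : ℝ) 1, ENNReal.ofReal (2 * π * ρ *
        circleAverage (fun z => (‖g z‖ - √((n : ℝ) + 1) * ‖z‖ ^ n) ^ 2) 0 ρ) ≤
        (∑' k, ENNReal.ofReal (‖b k‖ ^ 2 *
          (3 * π * (2 * ρ * (ρ ^ k - ρ ^ n * (c ^ k / c ^ n)) ^ 2)))) +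
        ENNReal.ofReal (2 * π * E * ρ ^ (2 * n + 1)) := by
      intro ρ hρ
      have h3 := circ_rho h0 h1 h hmax hρ.1 hρ.2
      have h4 := (diff_series hb h0 h1 hρ.1 hρ.2 n).mul_left (6 * π * ρ)
      have hρ0 := hρ.1
      have h5 : (fun k => 6 * π * ρ * (‖b k‖ ^ 2 * (ρ ^ k - ρ ^ n * (c ^ k / c ^ n)) ^ 2)) =
          fun k => ‖b k‖ ^ 2 * (3 * π * (2 * ρ * (ρ ^ k - ρ ^ n * (c ^ k / c ^ n)) ^ 2)) := by
        funext k
        ring
      rw [h5] at h4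
      rw [← ENNReal.ofReal_tsum_of_nonneg (fun k => by positivity) h4.summable, h4.tsum_eq,
        ← ENNReal.ofReal_add ?_ (by positivity)]
      · refine ENNReal.ofReal_le_ofReal ?_
        have h6 := mul_le_mul_of_nonneg_left h3 (show 0 ≤ 2 * π * ρ by positivity)
        refine h6.trans (le_of_eq ?_)
        ring
      · refine mul_nonneg (by positivity) ?_
        unfold av
        exact mul_nonneg (by positivity) (intervalIntegral.integral_nonneg (by positivity)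
          fun θ _ => by positivity)
    refine (setLIntegral_mono' measurableSet_Ioo h2).trans ?_
    rw [lintegral_add_right _ (by fun_prop)]
    have h7 := sum_int (q := fun k ρ => 3 * π * (2 * ρ * (ρ ^ k - ρ ^ n * (c ^ k / c ^ n)) ^ 2))
      (x := fun k => ‖b k‖ ^ 2) zero_le_one (fun k => by fun_prop) (fun k => by positivity)
      (fun k ρ hρ => by
        have := hρ.1
        positivity)
    rw [h7]
    have h8 : ∑' k : ℕ, ENNReal.ofReal (‖b k‖ ^ 2 * ∫ ρ in (0 : ℝ)..1,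
        3 * π * (2 * ρ * (ρ ^ k - ρ ^ n * (c ^ k / c ^ n)) ^ 2)) ≤
        ENNReal.ofReal (π * (3 * (7 * (1 - 1 / S * ms g c) + 16 / (n : ℝ) ^ 2))) := by
      have h9 := hser.mul_left π
      have h10 : ∀ k : ℕ, 0 ≤ π * (‖b k‖ ^ 2 * (1 ^ (2 * k + 2) / ((k : ℝ) + 1)) *
          (3 * (7 * (1 - ((k : ℝ) + 1) * c ^ (2 * k) / S) + 16 / (n : ℝ) ^ 2))) := by
        intro k
        have : ((k : ℝ) + 1) * c ^ (2 * k) / S ≤ 1 := (div_le_one hS0).2 (hmax k)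
        have : 0 ≤ 1 - ((k : ℝ) + 1) * c ^ (2 * k) / S := by linarith
        positivity
      rw [← h9.tsum_eq, ENNReal.ofReal_tsum_of_nonneg h10 h9.summable]
      refine ENNReal.tsum_le_tsum fun k => ENNReal.ofReal_le_ofReal ?_
      have h11 : ∫ ρ in (0 : ℝ)..1, 3 * π * (2 * ρ * (ρ ^ k - ρ ^ n * (c ^ k / c ^ n)) ^ 2) =
          π * (3 * ∫ ρ in (0 : ℝ)..1, 2 * ρ * (ρ ^ k - ρ ^ n * (c ^ k / c ^ n)) ^ 2) := by
        rw [intervalIntegral.integral_const_mul]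
        ring
      rw [h11, mul_left_comm]
      exact mul_le_mul_of_nonneg_left (hser0 k) pi_pos.le
    have h12 : ∫⁻ ρ in Ioo (0 : ℝ) 1, ENNReal.ofReal (2 * π * E * ρ ^ (2 * n + 1)) =
        ENNReal.ofReal (π * (E / (n + 1))) := by
      have hi : IntegrableOn (fun ρ : ℝ => 2 * π * E * ρ ^ (2 * n + 1)) (Ioo 0 1) :=
        (Continuous.integrableOn_Icc (by fun_prop)).mono_set Ioo_subset_Icc_self
      rw [← ofReal_integral_eq_lintegral_ofReal hi]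
      · congr 1
        rw [← integral_Ioc_eq_integral_Ioo, ← intervalIntegral.integral_of_le zero_le_one,
          intervalIntegral.integral_const_mul, integral_pow]
        push_cast
        have : (2 * (n : ℝ) + 1 + 1) = 2 * (n + 1) := by ring
        rw [this, zero_pow (by omega)]
        field_simp
        ring
      · refine (ae_restrict_iff' measurableSet_Ioo).2 (Filter.Eventually.of_forall fun ρ hρ => ?_)
        have := hρ.1
        positivity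
    rw [h12, mul_add, ENNReal.ofReal_add ?_ (by positivity)]
    · exact add_le_add_left h8 _
    · have h13 : 0 ≤ 3 * (7 * (1 - 1 / S * ms g c) + 16 / (n : ℝ) ^ 2) := by
        refine hser.nonneg fun k => ?_
        have : ((k : ℝ) + 1) * c ^ (2 * k) / S ≤ 1 := (div_le_one hS0).2 (hmax k)
        have : 0 ≤ 1 - ((k : ℝ) + 1) * c ^ (2 * k) / S := by linarith
        positivity
      positivity
  have hF0 := kf_nonneg c
  have hFS : KF c ^ 2 * S ≤ 1 := kf_mono_le h0 n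
  have hms0 : 0 ≤ ms g c := mul_nonneg (by positivity) (intervalIntegral.integral_nonneg
    (by positivity) fun θ _ => by positivity)
  have hFS2 : KF c ^ 2 ≤ 1 / S := by rwa [le_div_iff₀ hS0]
  have hc2 : 0 < c ^ 2 := by positivity
  have hms : 1 - 1 / S * ms g c ≤ 1 / (c ^ 2 * S) := by
    have h2 := defects h0 h1 h
    have h3 := ms_f_le h0 h1 h
    have h4 : sq f c ≤ c ^ 2 * ms f c := by
      obtain ⟨a, ha⟩ := ps_exists h.1.1
      have h5 := tail_ms h0 h1 h.1 ha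
      have h6 : 0 ≤ c ^ 2 * ms (fun z => f z - a 0) c := mul_nonneg hc2.le
        (mul_nonneg (by positivity) (intervalIntegral.integral_nonneg
          (by positivity) fun θ _ => by positivity))
      linarith
    have h5 : c ^ 2 * (1 - KF c ^ 2 * ms g c) ≤ KF c ^ 2 := by nlinarith
    have h6 : 1 - 1 / S * ms g c ≤ 1 - KF c ^ 2 * ms g c := by
      have := mul_le_mul_of_nonneg_right hFS2 hms0
      linarith
    rw [le_div_iff₀ (by positivity)]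
    have h7 : (1 - 1 / S * ms g c) * (c ^ 2 * S) ≤ c ^ 2 * (1 - KF c ^ 2 * ms g c) * S := by
      have := mul_le_mul_of_nonneg_right h6 (show 0 ≤ c ^ 2 * S by positivity)
      linarith
    have h8 : c ^ 2 * (1 - KF c ^ 2 * ms g c) * S ≤ KF c ^ 2 * S :=
      mul_le_mul_of_nonneg_right h5 hS0.le
    linarith
  have hEb : E / (n + 1) ≤ 39 / (c ^ 2 * S) := by
    have hc1 : c ^ 2 ≤ 1 := pow_le_one₀ h0.le h1.le
    have e1 : E / (n + 1) = 3 * (12 + c ^ 2) / (c ^ 2 * S) := by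
      rw [hE, hS]
      field_simp
    rw [e1]
    exact div_le_div_of_nonneg_right (by linarith) (by positivity)
  have hnn : 0 ≤ π * (3 * (7 * (1 - 1 / S * ms g c) + 16 / (n : ℝ) ^ 2) + E / (n + 1)) := by
    have h13 : 0 ≤ 3 * (7 * (1 - 1 / S * ms g c) + 16 / (n : ℝ) ^ 2) := by
      refine hser.nonneg fun k => ?_
      have : ((k : ℝ) + 1) * c ^ (2 * k) / S ≤ 1 := (div_le_one hS0).2 (hmax k)
      have : 0 ≤ 1 - ((k : ℝ) + 1) * c ^ (2 * k) / S := by linarith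
      positivity
    positivity
  have h14 := (ENNReal.ofReal_le_ofReal_iff hnn).1 hmain
  have h15 := mul_le_mul_of_nonneg_left h14 (show 0 ≤ π⁻¹ by positivity)
  rw [← mul_assoc π⁻¹ π, inv_mul_cancel₀ pi_ne_zero, one_mul] at h15
  refine h15.trans ?_
  have e2 : 60 / (c ^ 2 * S) + 48 / (n : ℝ) ^ 2 =
      3 * (7 * (1 / (c ^ 2 * S)) + 16 / (n : ℝ) ^ 2) + 39 / (c ^ 2 * S) := by ring
  rw [e2]
  linarith

end

end Pool.Agent.Helper23.KB
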