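import Pool.Agent.Helper23.KB.Shape2

/-!
# KB: the constants, and the asymptotics of Korenblum's function
-/

set_option autoImplicit false

namespace Pool.Agent.Helper23.KB

open Complex Metric Set MeasureTheory Real Filter Topology
open Pool.Agent.Helper21.IM (PS ps_exists ps_diff ps_summable parseval_sq ps_zero ps_sub ps_const
  ps_congr ps_smul)

/-- the bound from below for Korenblum's function, without an extremal pair -/
theorem low_t {c t S : ℝ} (h0 : 0 < c) (h1 : c < 1) {f g : ℂ → ℂ} (hf : Sph f) (hg : Sph g)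
    (h : Dom c t f g) (hS : ∀ k : ℕ, ((k : ℝ) + 1) * c ^ (2 * k) ≤ S) :
    1 ≤ t ^ 2 * (1 + c ^ 2 * S) := by
  obtain ⟨a, ha⟩ := ps_exists hf.1
  have h2 : sq f c ≤ c ^ 2 * ms f c := by
    refine hasSum_le (fun k => ?_) (area_series ha h0.le h1.le hf.2.1)
      ((ms_series ha h0.le h1).mul_left (c ^ 2))
    have h5 : (1 : ℝ) ≤ (k : ℝ) + 1 := by
      have := Nat.cast_nonneg (α := ℝ) k
      linarith
    have h6 : c ^ (2 * k + 2) / ((k : ℝ) + 1) ≤ c ^ (2 * k + 2) :=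
      div_le_self (by positivity) h5
    calc ‖a k‖ ^ 2 * (c ^ (2 * k + 2) / ((k : ℝ) + 1)) ≤ ‖a k‖ ^ 2 * c ^ (2 * k + 2) := by gcongr
      _ = _ := by ring
  have h3 := ann h1 hf hg h
  have h3' : 0 ≤ sq g c := mul_nonneg (by positivity) (integral_nonneg fun z => by positivity)
  have h4 : ms f c ≤ t ^ 2 * ms g c := by
    have hfc := cont_circ hf.1 h0.le h1
    have hgc := cont_circ hg.1 h0.le h1
    unfold ms
    rw [← av_mul]
    refine av_mono (hfc.norm.pow 2) (continuous_const.mul (hgc.norm.pow 2)) fun θ => ?_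
    rw [← mul_pow]
    have hn : ‖circleMap 0 c θ‖ = c := by rw [norm_circleMap_zero, abs_of_pos h0]
    exact pow_le_pow_left₀ (norm_nonneg _) (h _ hn.ge (by rw [hn]; exact h1)) 2
  have h5 := ms_le hg h0.le h1 hS
  have h6 : c ^ 2 * ms f c ≤ c ^ 2 * (t ^ 2 * S) := by
    refine mul_le_mul_of_nonneg_left (h4.trans ?_) (by positivity)
    exact mul_le_mul_of_nonneg_left h5 (by positivity)
  nlinarith [sq_nonneg t]

theorem kf_low2 {c S : ℝ} (h0 : 0 < c) (h1 : c < 1)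
    (hS : ∀ k : ℕ, ((k : ℝ) + 1) * c ^ (2 * k) ≤ S) : 1 ≤ KF c ^ 2 * (1 + c ^ 2 * S) := by
  have hS0 : 0 < S := by
    have := hS 0
    norm_num at this
    linarith
  have hx : 0 < 1 + c ^ 2 * S := by positivity
  have h2 : 1 / √(1 + c ^ 2 * S) ≤ KF c := by
    refine le_csInf ⟨1, zero_le_one, _, _, sph_mono 0, sph_mono 0, fun z _ _ => (one_mul _).ge⟩ ?_
    rintro t ⟨ht0, f, g, hf, hg, hd⟩
    have h3 := low_t h0 h1 hf hg hd hS
    rw [div_le_iff₀ (Real.sqrt_pos.2 hx)]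
    have h4 : 1 ≤ (t * √(1 + c ^ 2 * S)) ^ 2 := by
      rw [mul_pow, Real.sq_sqrt hx.le]
      exact h3
    have h5 : 0 ≤ t * √(1 + c ^ 2 * S) := by positivity
    nlinarith
  have h3 : (1 / √(1 + c ^ 2 * S)) ^ 2 ≤ KF c ^ 2 := pow_le_pow_left₀ (by positivity) h2 2
  rw [div_pow, Real.sq_sqrt hx.le, one_pow, div_le_iff₀ hx] at h3
  exact h3

/-- the choice of `n` -/
theorem choose_n {c : ℝ} (h1 : c < 1) (h0 : 0 < c) : ∃ n : ℕ, ((n : ℝ) + 1) * (1 - c ^ 2) ≤ 1 ∧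
    1 < ((n : ℝ) + 2) * (1 - c ^ 2) := by
  have he : 0 < 1 - c ^ 2 := by nlinarith
  have he1 : 1 ≤ 1 / (1 - c ^ 2) := by
    rw [le_div_iff₀ he]
    nlinarith
  obtain ⟨n, hn⟩ : ∃ n, ⌊1 / (1 - c ^ 2)⌋₊ = n + 1 := by
    have := Nat.le_floor (show ((1 : ℕ) : ℝ) ≤ 1 / (1 - c ^ 2) by exact_mod_cast he1)
    exact ⟨⌊1 / (1 - c ^ 2)⌋₊ - 1, by omega⟩
  refine ⟨n, ?_, ?_⟩
  · have h2 := Nat.floor_le (show 0 ≤ 1 / (1 - c ^ 2) by positivity)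
    rw [hn, le_div_iff₀ he] at h2
    exact_mod_cast h2
  · have h2 := Nat.lt_floor_add_one (1 / (1 - c ^ 2))
    rw [hn, div_lt_iff₀ he] at h2
    push_cast at h2
    linarith

section
variable {c : ℝ} {n : ℕ}

theorem n_lo (hlo : ((n : ℝ) + 1) * (1 - c ^ 2) ≤ 1) : (n : ℝ) / (n + 1) ≤ c ^ 2 := by
  have hn1 : (0 : ℝ) < (n : ℝ) + 1 := by positivity
  rw [div_le_iff₀ hn1]
  nlinarith

theorem n_hi (hhi : 1 < ((n : ℝ) + 2) * (1 - c ^ 2)) : c ^ 2 ≤ ((n : ℝ) + 1) / (n + 2) := by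
  have hn2 : (0 : ℝ) < (n : ℝ) + 2 := by positivity
  rw [le_div_iff₀ hn2]
  nlinarith

/-- the largest weight, from below -/
theorem s_low (_h0 : 0 < c) (_h1 : c < 1) (hlo : ((n : ℝ) + 1) * (1 - c ^ 2) ≤ 1)
    (hhi : 1 < ((n : ℝ) + 2) * (1 - c ^ 2)) :
    c ^ 2 ≤ Real.exp 1 * (1 - c ^ 2) * (((n : ℝ) + 1) * c ^ (2 * n)) := by
  have he : 0 < 1 - c ^ 2 := by nlinarith
  have h2 : c ^ 2 ≤ (1 - c ^ 2) * ((n : ℝ) + 1) := by nlinarith
  have h3 : 1 ≤ Real.exp 1 * c ^ (2 * n) := by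
    rcases Nat.eq_zero_or_pos n with hn | hn
    · subst hn
      rw [mul_zero, pow_zero, mul_one]
      exact Real.one_le_exp zero_le_one
    · have hn0 : (0 : ℝ) < n := by exact_mod_cast hn
      have h4 : (n : ℝ) / (n + 1) ≤ c ^ 2 := n_lo hlo
      have h5 : ((n : ℝ) / (n + 1)) ^ n ≤ c ^ (2 * n) := by
        rw [pow_mul]
        exact pow_le_pow_left₀ (by positivity) h4 n
      have h6 : 1 / (n : ℝ) + 1 ≤ Real.exp (1 / n) := Real.add_one_le_exp _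
      have h7 : (1 / (n : ℝ) + 1) ^ n ≤ Real.exp 1 := by
        refine (pow_le_pow_left₀ (by positivity) h6 n).trans (le_of_eq ?_)
        rw [← Real.exp_nat_mul]
        congr 1
        field_simp
      have h8 : (1 / (n : ℝ) + 1) ^ n * ((n : ℝ) / (n + 1)) ^ n = 1 := by
        rw [← mul_pow]
        have : (1 / (n : ℝ) + 1) * ((n : ℝ) / (n + 1)) = 1 := by
          field_simp
          ring
        rw [this, one_pow]
      calc (1 : ℝ) = (1 / (n : ℝ) + 1) ^ n * ((n : ℝ) / (n + 1)) ^ n := h8.symm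
        _ ≤ Real.exp 1 * c ^ (2 * n) := mul_le_mul h7 h5 (by positivity) (Real.exp_pos 1).le
  calc c ^ 2 ≤ (1 - c ^ 2) * ((n : ℝ) + 1) := h2
    _ = (1 - c ^ 2) * ((n : ℝ) + 1) * 1 := (mul_one _).symm
    _ ≤ (1 - c ^ 2) * ((n : ℝ) + 1) * (Real.exp 1 * c ^ (2 * n)) :=
        mul_le_mul_of_nonneg_left h3 (by positivity)
    _ = _ := by ring

/-- the largest weight, from above -/
theorem s_up (h0 : 0 < c) (_h1 : c < 1) (hlo : ((n : ℝ) + 1) * (1 - c ^ 2) ≤ 1)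
    (hhi : 1 < ((n : ℝ) + 2) * (1 - c ^ 2)) :
    (1 - c ^ 2) * (((n : ℝ) + 1) * c ^ (2 * n)) ≤ Real.exp (2 * (1 - c ^ 2) - 1) := by
  have he : 0 < 1 - c ^ 2 := by nlinarith
  have h2 : c ^ (2 * n) ≤ Real.exp (-(n * (1 - c ^ 2))) := by
    have h3 : c ^ 2 ≤ Real.exp (-(1 - c ^ 2)) := by
      have := Real.add_one_le_exp (-(1 - c ^ 2))
      linarith
    rw [pow_mul]
    refine (pow_le_pow_left₀ (by positivity) h3 n).trans (le_of_eq ?_)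
    rw [← Real.exp_nat_mul]
    congr 1
    ring
  have h3 : Real.exp (-(n * (1 - c ^ 2))) ≤ Real.exp (2 * (1 - c ^ 2) - 1) := by
    refine Real.exp_le_exp.2 ?_
    nlinarith
  calc (1 - c ^ 2) * (((n : ℝ) + 1) * c ^ (2 * n)) = ((n : ℝ) + 1) * (1 - c ^ 2) * c ^ (2 * n) := by ring
    _ ≤ 1 * c ^ (2 * n) := mul_le_mul_of_nonneg_right hlo (by positivity)
    _ ≤ _ := by
      rw [one_mul]
      exact h2.trans h3

theorem kf_up (h0 : 0 < c) (h1 : c < 1) : KF c ^ 2 * c ^ 2 ≤ Real.exp 1 * (1 - c ^ 2) := by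
  obtain ⟨n, hlo, hhi⟩ := choose_n h1 h0
  have h2 := s_low h0 h1 hlo hhi
  have h3 := kf_mono_le h0 n
  have he : 0 < 1 - c ^ 2 := by nlinarith
  calc KF c ^ 2 * c ^ 2 ≤ KF c ^ 2 * (Real.exp 1 * (1 - c ^ 2) * (((n : ℝ) + 1) * c ^ (2 * n))) :=
        mul_le_mul_of_nonneg_left h2 (by positivity)
    _ = Real.exp 1 * (1 - c ^ 2) * (KF c ^ 2 * (((n : ℝ) + 1) * c ^ (2 * n))) := by ring
    _ ≤ Real.exp 1 * (1 - c ^ 2) * 1 := mul_le_mul_of_nonneg_left h3 (by positivity)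
    _ = _ := mul_one _

theorem kf_dn (h0 : 0 < c) (h1 : c < 1) :
    (1 - c ^ 2) ≤ KF c ^ 2 * ((1 - c ^ 2) + Real.exp (2 * (1 - c ^ 2) - 1)) := by
  obtain ⟨n, hlo, hhi⟩ := choose_n h1 h0
  have h2 := kf_low2 h0 h1 (smax h0 (n_lo hlo) (n_hi hhi))
  have h3 := s_up h0 h1 hlo hhi
  have he : 0 < 1 - c ^ 2 := by nlinarith
  have hc1 : c ^ 2 ≤ 1 := pow_le_one₀ h0.le h1.le
  have h4 := mul_le_mul_of_nonneg_left h2 he.le
  have hS0 : 0 ≤ (1 - c ^ 2) * (((n : ℝ) + 1) * c ^ (2 * n)) := by positivity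
  calc (1 - c ^ 2) = (1 - c ^ 2) * 1 := (mul_one _).symm
    _ ≤ (1 - c ^ 2) * (KF c ^ 2 * (1 + c ^ 2 * (((n : ℝ) + 1) * c ^ (2 * n)))) := h4
    _ = KF c ^ 2 * ((1 - c ^ 2) + c ^ 2 * ((1 - c ^ 2) * (((n : ℝ) + 1) * c ^ (2 * n)))) := by ring
    _ ≤ KF c ^ 2 * ((1 - c ^ 2) + Real.exp (2 * (1 - c ^ 2) - 1)) := by
      refine mul_le_mul_of_nonneg_left ?_ (by positivity)
      nlinarith

end

theorem kf_lim : Tendsto (fun c => KF c ^ 2 / (1 - c ^ 2)) (𝓝[<] 1) (𝓝 (Real.exp 1)) := by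
  have hev : ∀ᶠ c : ℝ in 𝓝[<] 1, 0 < c ∧ c < 1 := by
    have h2 : ∀ᶠ c : ℝ in 𝓝[<] 1, c ∈ Ioo (0 : ℝ) 1 := Ioo_mem_nhdsLT one_pos
    exact h2.mono fun c hc => hc
  refine tendsto_of_tendsto_of_tendsto_of_le_of_le'
    (g := fun c : ℝ => 1 / ((1 - c ^ 2) + Real.exp (2 * (1 - c ^ 2) - 1)))
    (h := fun c : ℝ => Real.exp 1 / c ^ 2) ?_ ?_ ?_ ?_
  · have h2 : ContinuousAt (fun c : ℝ => 1 / ((1 - c ^ 2) + Real.exp (2 * (1 - c ^ 2) - 1))) 1 := by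
      refine ContinuousAt.div continuousAt_const (by fun_prop) ?_
      norm_num
    have h3 := h2.tendsto.mono_left (nhdsWithin_le_nhds (s := Iio (1 : ℝ)))
    have h4 : 1 / ((1 - (1 : ℝ) ^ 2) + Real.exp (2 * (1 - (1 : ℝ) ^ 2) - 1)) = Real.exp 1 := by
      norm_num
      rw [Real.exp_neg, inv_inv]
    rw [h4] at h3
    exact h3
  · have h2 : ContinuousAt (fun c : ℝ => Real.exp 1 / c ^ 2) 1 :=
      ContinuousAt.div continuousAt_const (by fun_prop) (by norm_num)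
    have h3 := h2.tendsto.mono_left (nhdsWithin_le_nhds (s := Iio (1 : ℝ)))
    norm_num at h3
    exact h3
  · filter_upwards [hev] with c hc
    have he : 0 < 1 - c ^ 2 := by nlinarith [hc.1, hc.2]
    have h2 := kf_dn hc.1 hc.2
    have h3 : 0 < (1 - c ^ 2) + Real.exp (2 * (1 - c ^ 2) - 1) := by positivity
    rw [div_le_div_iff₀ h3 he, one_mul]
    exact h2
  · filter_upwards [hev] with c hc
    have he : 0 < 1 - c ^ 2 := by nlinarith [hc.1, hc.2]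
    have h2 := kf_up hc.1 hc.2
    rw [div_le_div_iff₀ he (by have := hc.1; positivity)]
    exact h2

/-- the first function is close to a constant -/
theorem area_f {c : ℝ} (h0 : 0 < c) (h1 : c < 1) {f g : ℂ → ℂ} (h : Ext c f g) :
    π⁻¹ * ∫ z in ball (0 : ℂ) 1, ‖f z - f 0‖ ^ 2 ≤ 11 * (1 - c ^ 2) := by
  obtain ⟨a, ha⟩ := ps_exists h.1.1
  have ha0 : f 0 = a 0 := ps_zero ha
  have hi : IntegrableOn (fun z => ‖f z - a 0‖ ^ 2) (ball 0 1) := by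
    have hfc : ContinuousOn (fun z => ‖f z - a 0‖ ^ 2) (ball 0 1) :=
      (h.1.1.continuousOn.sub continuousOn_const).norm.pow 2
    have hd : IntegrableOn (fun z : ℂ => 2 * ‖f z‖ ^ 2 + 2 * ‖a 0‖ ^ 2) (ball 0 1) :=
      (h.1.2.1.const_mul 2).add (int_cont (by fun_prop))
    refine hd.mono' (hfc.aestronglyMeasurable measurableSet_ball) ?_
    refine Filter.Eventually.of_forall fun z => ?_
    rw [Real.norm_eq_abs, abs_of_nonneg (by positivity)]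
    have h2 := norm_sub_le (f z) (a 0)
    nlinarith [sq_nonneg (‖f z‖ - ‖a 0‖), norm_nonneg (f z - a 0), norm_nonneg (f z), norm_nonneg (a 0)]
  have s1 := area_series ha zero_le_one le_rfl h.1.2.1
  have e1 : sq f 1 = 1 := h.1.2.2
  rw [e1] at s1
  have s2 := area_series (ps_sub0 ha) zero_le_one le_rfl hi
  have s3 := s1.sub (hasSum_ite_eq 0 (‖a 0‖ ^ 2))
  have e2 : (fun k : ℕ => ‖(if k = 0 then 0 else a k)‖ ^ 2 * ((1 : ℝ) ^ (2 * k + 2) / ((k : ℝ) + 1))) =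
      fun k : ℕ => ‖a k‖ ^ 2 * ((1 : ℝ) ^ (2 * k + 2) / ((k : ℝ) + 1)) -
        if k = 0 then ‖a 0‖ ^ 2 else 0 := by
    funext k
    split_ifs with hk
    · subst hk
      norm_num
    · rw [sub_zero]
  rw [e2] at s2
  have e3 : sq (fun z => f z - a 0) 1 = 1 - ‖a 0‖ ^ 2 := s2.unique s3
  have e4 : π⁻¹ * ∫ z in ball (0 : ℂ) 1, ‖f z - f 0‖ ^ 2 = 1 - ‖a 0‖ ^ 2 := by
    rw [ha0]
    exact e3
  rw [e4]
  have he : 0 < 1 - c ^ 2 := by nlinarith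
  have h2 := tail_f h0 h1 h ha
  have h3 := kf_up h0 h1
  have h4 : Real.exp 1 < 2.7182818286 := Real.exp_one_lt_d9
  rcases le_total (1 / 2) (c ^ 2) with h5 | h5
  · nlinarith [sq_nonneg (KF c)]
  · nlinarith [sq_nonneg ‖a 0‖]

theorem int_gn {g : ℂ → ℂ} (hg : Sph g) (n : ℕ) :
    IntegrableOn (fun z : ℂ => (‖g z‖ - √((n : ℝ) + 1) * ‖z‖ ^ n) ^ 2) (ball 0 1) ∧
    π⁻¹ * ∫ z in ball (0 : ℂ) 1, (‖g z‖ - √((n : ℝ) + 1) * ‖z‖ ^ n) ^ 2 ≤ 2 := by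
  have hgc : ContinuousOn g (ball 0 1) := hg.1.continuousOn
  have hΦc : ContinuousOn (fun z : ℂ => (‖g z‖ - √((n : ℝ) + 1) * ‖z‖ ^ n) ^ 2) (ball 0 1) :=
    (hgc.norm.sub (by fun_prop)).pow 2
  have hm := sph_mono n
  have hd : IntegrableOn (fun z : ℂ => ‖g z‖ ^ 2 +
      ‖((√((n : ℝ) + 1) : ℝ) : ℂ) * z ^ n‖ ^ 2) (ball 0 1) := hg.2.1.add hm.2.1
  have hle : ∀ z : ℂ, (‖g z‖ - √((n : ℝ) + 1) * ‖z‖ ^ n) ^ 2 ≤ ‖g z‖ ^ 2 +
      ‖((√((n : ℝ) + 1) : ℝ) : ℂ) * z ^ n‖ ^ 2 := by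
    intro z
    have h2 : ‖((√((n : ℝ) + 1) : ℝ) : ℂ) * z ^ n‖ = √((n : ℝ) + 1) * ‖z‖ ^ n := by
      rw [norm_mul, norm_pow, Complex.norm_real, Real.norm_eq_abs, abs_of_nonneg (Real.sqrt_nonneg _)]
    rw [h2]
    have := mul_nonneg (norm_nonneg (g z)) (show 0 ≤ √((n : ℝ) + 1) * ‖z‖ ^ n by positivity)
    nlinarith
  have hi : IntegrableOn (fun z : ℂ => (‖g z‖ - √((n : ℝ) + 1) * ‖z‖ ^ n) ^ 2) (ball 0 1) := by
    refine hd.mono' (hΦc.aestronglyMeasurable measurableSet_ball) ?_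
    refine Filter.Eventually.of_forall fun z => ?_
    rw [Real.norm_eq_abs, abs_of_nonneg (by positivity)]
    exact hle z
  refine ⟨hi, ?_⟩
  have h3 : ∫ z in ball (0 : ℂ) 1, (‖g z‖ - √((n : ℝ) + 1) * ‖z‖ ^ n) ^ 2 ≤
      (∫ z in ball (0 : ℂ) 1, ‖g z‖ ^ 2) +
        ∫ z in ball (0 : ℂ) 1, ‖((√((n : ℝ) + 1) : ℝ) : ℂ) * z ^ n‖ ^ 2 := by
    rw [← integral_add hg.2.1 hm.2.1]
    exact setIntegral_mono hi hd hle
  have h4 := mul_le_mul_of_nonneg_left h3 (show 0 ≤ π⁻¹ by positivity)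
  rw [mul_add, hg.2.2, hm.2.2] at h4
  linarith

/-- the second function is close to a monomial in modulus -/
theorem area_g2 {c : ℝ} (h0 : 0 < c) (h1 : c < 1) {f g : ℂ → ℂ} (h : Ext c f g) {n : ℕ}
    (hlo : ((n : ℝ) + 1) * (1 - c ^ 2) ≤ 1) (hhi : 1 < ((n : ℝ) + 2) * (1 - c ^ 2)) :
    π⁻¹ * ∫ z in ball (0 : ℂ) 1, (‖g z‖ - √((n : ℝ) + 1) * ‖z‖ ^ n) ^ 2 ≤ 340 * (1 - c ^ 2) := by
  have he : 0 < 1 - c ^ 2 := by nlinarith
  rcases le_total (1 / 4) (1 - c ^ 2) with h2 | h2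
  · have := (int_gn h.2.1 n).2
    linarith
  · have hn : 1 ≤ n := by
      by_contra hcon
      have : n = 0 := by omega
      subst this
      norm_num at hhi
      linarith
    have hn0 : (0 : ℝ) < n := by exact_mod_cast hn
    have h3 := area_g h0 h1 h hn (n_lo hlo) (n_hi hhi)
    refine h3.trans ?_
    set S := ((n : ℝ) + 1) * c ^ (2 * n) with hS
    have hS0 : 0 < S := by positivity
    have h4 := s_low h0 h1 hlo hhi
    rw [← hS] at h4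
    have h5 : Real.exp 1 < 2.7182818286 := Real.exp_one_lt_d9
    have hc2 : 3 / 4 ≤ c ^ 2 := by linarith
    have k1 : 60 / (c ^ 2 * S) ≤ 292 * (1 - c ^ 2) := by
      rw [div_le_iff₀ (by positivity)]
      have h6 : c ^ 2 * (Real.exp 1 * (1 - c ^ 2) * S) ≤ c ^ 2 * (2.7182818286 * (1 - c ^ 2) * S) := by
        gcongr
      have h7 : c ^ 2 * c ^ 2 ≤ c ^ 2 * (Real.exp 1 * (1 - c ^ 2) * S) :=
        mul_le_mul_of_nonneg_left h4 (by positivity)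
      nlinarith
    have k2 : 48 / (n : ℝ) ^ 2 ≤ 48 * (1 - c ^ 2) := by
      rw [div_le_iff₀ (by positivity)]
      have h6 : 1 / 2 ≤ n * (1 - c ^ 2) := by nlinarith
      have h7 : 1 ≤ (1 - c ^ 2) * (n : ℝ) ^ 2 := by
        have h8 : (1 / 2) * n ≤ n * (1 - c ^ 2) * n := mul_le_mul_of_nonneg_right h6 hn0.le
        have h9 : (2 : ℝ) ≤ n := by
          nlinarith
        nlinarith
      nlinarith
    linarith

/-- any two second functions are close in modulus -/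
theorem area_gg {c : ℝ} (h0 : 0 < c) (h1 : c < 1) {f₁ g₁ f₂ g₂ : ℂ → ℂ} (ha : Ext c f₁ g₁)
    (hb : Ext c f₂ g₂) :
    π⁻¹ * ∫ z in ball (0 : ℂ) 1, (‖g₁ z‖ - ‖g₂ z‖) ^ 2 ≤ 1360 * (1 - c ^ 2) := by
  obtain ⟨n, hlo, hhi⟩ := choose_n h1 h0
  have h2 := area_g2 h0 h1 ha hlo hhi
  have h3 := area_g2 h0 h1 hb hlo hhi
  have i1 := (int_gn ha.2.1 n).1
  have i2 := (int_gn hb.2.1 n).1
  have h4 : ∫ z in ball (0 : ℂ) 1, (‖g₁ z‖ - ‖g₂ z‖) ^ 2 ≤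
      2 * (∫ z in ball (0 : ℂ) 1, (‖g₁ z‖ - √((n : ℝ) + 1) * ‖z‖ ^ n) ^ 2) +
        2 * ∫ z in ball (0 : ℂ) 1, (‖g₂ z‖ - √((n : ℝ) + 1) * ‖z‖ ^ n) ^ 2 := by
    rw [← integral_const_mul, ← integral_const_mul, ← integral_add (i1.const_mul 2) (i2.const_mul 2)]
    have hle : ∀ z : ℂ, (‖g₁ z‖ - ‖g₂ z‖) ^ 2 ≤ 2 * (‖g₁ z‖ - √((n : ℝ) + 1) * ‖z‖ ^ n) ^ 2 +
        2 * (‖g₂ z‖ - √((n : ℝ) + 1) * ‖z‖ ^ n) ^ 2 := by
      intro z
      nlinarith [sq_nonneg ((‖g₁ z‖ - √((n : ℝ) + 1) * ‖z‖ ^ n) +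
        (‖g₂ z‖ - √((n : ℝ) + 1) * ‖z‖ ^ n))]
    have hd := (i1.const_mul 2).add (i2.const_mul 2)
    refine setIntegral_mono (hd.mono' (((ha.2.1.1.continuousOn.norm.sub
      hb.2.1.1.continuousOn.norm).pow 2).aestronglyMeasurable measurableSet_ball) ?_) hd hle
    refine Filter.Eventually.of_forall fun z => ?_
    rw [Real.norm_eq_abs, abs_of_nonneg (by positivity)]
    exact hle z
  have h5 := mul_le_mul_of_nonneg_left h4 (show 0 ≤ π⁻¹ by positivity)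
  nlinarith

end Pool.Agent.Helper23.KB
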