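import Pool.Agent.Helper23.KB.Shape3

/-!
# KB: the number of zeros of the second function
-/

set_option autoImplicit false

namespace Pool.Agent.Helper23.KB

open Complex Metric Set MeasureTheory Real Filter Topology
open Pool.Agent.Helper21.IM (PS ps_exists ps_diff ps_summable parseval_sq ps_zero ps_sub ps_const
  ps_congr ps_smul)

theorem refl_norm {s : ℝ} (hs : 0 < s) {z : ℂ} (hz : ‖z‖ = s) (a : ℂ) :
    ‖((s : ℂ) ^ 2 - (starRingEnd ℂ) a * z) / s‖ = ‖z - a‖ := by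
  have h1 : (s : ℂ) ^ 2 = z * (starRingEnd ℂ) z := by
    rw [Complex.mul_conj, Complex.normSq_eq_norm_sq, hz]
    push_cast
    rfl
  have h2 : (s : ℂ) ^ 2 - (starRingEnd ℂ) a * z = z * (starRingEnd ℂ) (z - a) := by
    rw [h1, map_sub]
    ring
  rw [norm_div, h2, norm_mul, RCLike.norm_conj, hz, Complex.norm_real, Real.norm_eq_abs,
    abs_of_pos hs]
  field_simp

section
variable {c : ℝ} {f g u : ℂ → ℂ} {N : ℕ} {a : Fin N → ℂ}

theorem f_zero_s (h0 : 0 < c) (h : Ext c f g) (hu : DifferentiableOn ℂ u (ball 0 1))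
    (ha : ∀ i, ‖a i‖ ≤ c) (hg : ∀ z ∈ ball (0 : ℂ) 1, g z = (∏ i, (z - a i)) * u z)
    {s : ℝ} (hcs : c < s) (hs1 : s < 1) (hus : ∀ z ∈ closedBall (0 : ℂ) s, u z ≠ 0) :
    ‖f 0‖ ≤ KF c * ‖u 0‖ * s ^ N := by
  have hs0 : 0 < s := h0.trans hcs
  set D : ℂ → ℂ := fun z => u z * ∏ i, ((s : ℂ) ^ 2 - (starRingEnd ℂ) (a i) * z) / s with hD
  have hsub : closedBall (0 : ℂ) s ⊆ ball 0 1 := closedBall_subset_ball hs1
  have hD0 : ∀ z ∈ closedBall (0 : ℂ) s, D z ≠ 0 := by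
    intro z hz
    refine mul_ne_zero (hus z hz) (Finset.prod_ne_zero_iff.2 fun i _ => ?_)
    refine div_ne_zero (fun he => ?_) (by exact_mod_cast hs0.ne')
    have h2 : (s : ℂ) ^ 2 = (starRingEnd ℂ) (a i) * z := sub_eq_zero.1 he
    have h3 := congrArg norm h2
    rw [norm_pow, Complex.norm_real, Real.norm_eq_abs, abs_of_pos hs0, norm_mul,
      RCLike.norm_conj] at h3
    have hz' : ‖z‖ ≤ s := by rwa [mem_closedBall_zero_iff] at hz
    have h4 : ‖a i‖ * ‖z‖ ≤ c * s := mul_le_mul (ha i) hz' (norm_nonneg _) h0.le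
    nlinarith
  have hDd : DifferentiableOn ℂ D (ball 0 1) := by
    refine hu.mul ?_
    fun_prop
  have hqd : DifferentiableOn ℂ (fun z => f z / D z) (closedBall 0 s) := by
    intro z hz
    exact ((h.1.1.mono hsub) z hz).div ((hDd.mono hsub) z hz) (hD0 z hz)
  have hdc : DiffContOnCl ℂ (fun z => f z / D z) (ball 0 s) := by
    refine ⟨hqd.mono ball_subset_closedBall, ?_⟩
    rw [closure_ball _ hs0.ne']
    exact hqd.continuousOn
  have hb : ∀ z ∈ frontier (ball (0 : ℂ) s), ‖f z / D z‖ ≤ KF c := by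
    intro z hz
    rw [frontier_ball _ hs0.ne', mem_sphere_zero_iff_norm] at hz
    have hzc : z ∈ closedBall (0 : ℂ) s := by
      rw [mem_closedBall_zero_iff, hz]
    have h2 : ‖D z‖ = ‖g z‖ := by
      rw [hg z (hsub hzc), hD, norm_mul, norm_mul, norm_prod, norm_prod, mul_comm]
      congr 1
      exact Finset.prod_congr rfl fun i _ => refl_norm hs0 hz (a i)
    have h3 := h.2.2 z (by rw [hz]; exact hcs.le) (by rw [hz]; exact hs1)
    rw [norm_div, div_le_iff₀ (norm_pos_iff.2 (hD0 z hzc)), h2]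
    exact h3
  have h4 := Complex.norm_le_of_forall_mem_frontier_norm_le isBounded_ball hdc hb
    (subset_closure (mem_ball_self hs0))
  have h5 : ‖D 0‖ = ‖u 0‖ * s ^ N := by
    rw [hD, norm_mul, norm_prod]
    congr 1
    have h6 : ∀ i ∈ (Finset.univ : Finset (Fin N)),
        ‖((s : ℂ) ^ 2 - (starRingEnd ℂ) (a i) * 0) / s‖ = s := by
      intro i _
      rw [mul_zero, sub_zero, norm_div, norm_pow, Complex.norm_real, Real.norm_eq_abs,
        abs_of_pos hs0]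
      field_simp
    rw [Finset.prod_congr rfl h6, Finset.prod_const, Finset.card_univ, Fintype.card_fin]
  have h6 : ‖D 0‖ ≠ 0 := norm_ne_zero_iff.2 (hD0 0 (mem_closedBall_self hs0.le))
  have h7 : 0 < ‖D 0‖ := lt_of_le_of_ne (norm_nonneg _) h6.symm
  have h8 : ‖f 0‖ ≤ KF c * ‖D 0‖ := by
    have h9 : ‖f 0 / D 0‖ ≤ KF c := h4
    rwa [norm_div, div_le_iff₀ h7] at h9
  rw [h5] at h8
  linarith

theorem f_zero (h0 : 0 < c) (h1 : c < 1) (h : Ext c f g) (hu : DifferentiableOn ℂ u (ball 0 1))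
    (hu0 : ∀ z : ℂ, ‖z‖ ≤ c → u z ≠ 0) (ha : ∀ i, ‖a i‖ ≤ c)
    (hg : ∀ z ∈ ball (0 : ℂ) 1, g z = (∏ i, (z - a i)) * u z) :
    ‖f 0‖ ≤ KF c * ‖u 0‖ * c ^ N := by
  have hopen : IsOpen {z : ℂ | z ∈ ball (0 : ℂ) 1 ∧ u z ≠ 0} :=
    hu.continuousOn.isOpen_inter_preimage isOpen_ball isOpen_ne
  have hsub : closedBall (0 : ℂ) c ⊆ {z : ℂ | z ∈ ball (0 : ℂ) 1 ∧ u z ≠ 0} := by
    intro z hz
    exact ⟨closedBall_subset_ball h1 hz, hu0 z (by rwa [mem_closedBall_zero_iff] at hz)⟩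
  obtain ⟨δ, hδ, hδs⟩ := (isCompact_closedBall (0 : ℂ) c).exists_thickening_subset_open hopen hsub
  have hev : ∀ᶠ s : ℝ in 𝓝[>] c, ‖f 0‖ ≤ KF c * ‖u 0‖ * s ^ N := by
    have h2 : ∀ᶠ s : ℝ in 𝓝[>] c, s ∈ Ioo c (min 1 (c + δ)) :=
      Ioo_mem_nhdsGT (lt_min h1 (by linarith))
    filter_upwards [h2] with s hs
    refine f_zero_s h0 h hu ha hg hs.1 (hs.2.trans_le (min_le_left _ _)) fun z hz => ?_
    have h3 : z ∈ thickening δ (closedBall (0 : ℂ) c) := by
      rw [mem_thickening_iff]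
      rw [mem_closedBall_zero_iff] at hz
      have hs2 : s < c + δ := hs.2.trans_le (min_le_right _ _)
      rcases le_total ‖z‖ c with h4 | h4
      · exact ⟨z, by rwa [mem_closedBall_zero_iff], by rw [dist_self]; exact hδ⟩
      · have hz0 : 0 < ‖z‖ := h0.trans_le h4
        refine ⟨((c / ‖z‖ : ℝ) : ℂ) * z, ?_, ?_⟩
        · rw [mem_closedBall_zero_iff, norm_mul, Complex.norm_real, Real.norm_eq_abs,
            abs_of_pos (by positivity)]
          field_simp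
          exact le_rfl
        · rw [dist_eq_norm]
          have h5 : z - ((c / ‖z‖ : ℝ) : ℂ) * z = ((1 - c / ‖z‖ : ℝ) : ℂ) * z := by
            push_cast
            ring
          rw [h5, norm_mul, Complex.norm_real, Real.norm_eq_abs, abs_of_nonneg]
          · have h6 : (1 - c / ‖z‖) * ‖z‖ = ‖z‖ - c := by field_simp
            rw [h6]
            linarith
          · rw [sub_nonneg, div_le_one hz0]
            exact h4
    exact (hδs h3).2
  have hlim : Tendsto (fun s : ℝ => KF c * ‖u 0‖ * s ^ N) (𝓝[>] c) (𝓝 (KF c * ‖u 0‖ * c ^ N)) :=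
    (Continuous.tendsto (by fun_prop) c).mono_left nhdsWithin_le_nhds
  exact ge_of_tendsto hlim hev

theorem ms_zeros (hu : DifferentiableOn ℂ u (ball 0 1))
    (hg : ∀ z ∈ ball (0 : ℂ) 1, g z = (∏ i, (z - a i)) * u z) {r : ℝ} (hr0 : 0 < r) (hr1 : r < 1) :
    ‖u 0‖ ^ 2 * r ^ (2 * N) ≤ ms g r := by
  classical
  set k : ℂ → ℂ := fun z => (∏ i, if ‖a i‖ < r then ((r : ℂ) ^ 2 - (starRingEnd ℂ) (a i) * z) / r
    else z - a i) * u z with hk
  have hkd : DifferentiableOn ℂ k (ball 0 1) := by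
    refine DifferentiableOn.mul (DifferentiableOn.fun_finsetProd fun i _ => ?_) hu
    split_ifs
    · fun_prop
    · fun_prop
  obtain ⟨b, hb⟩ := ps_exists hkd
  have h2 := le_hasSum (ms_series hb hr0.le hr1) 0 fun k _ => by positivity
  have h3 : ms k r = ms g r := by
    unfold ms
    congr 1
    funext θ
    have hn : ‖circleMap 0 r θ‖ = r := by rw [norm_circleMap_zero, abs_of_pos hr0]
    rw [hg _ (by rw [mem_ball_zero_iff, hn]; exact hr1), hk, norm_mul, norm_mul, norm_prod, norm_prod]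
    congr 2
    refine Finset.prod_congr rfl fun i _ => ?_
    split_ifs
    · exact refl_norm hr0 hn (a i)
    · rfl
  have h4 : ‖b 0‖ = ‖k 0‖ := by rw [ps_zero hb]
  have h5 : ‖u 0‖ * r ^ N ≤ ‖k 0‖ := by
    rw [hk, norm_mul, norm_prod, mul_comm]
    refine mul_le_mul_of_nonneg_right ?_ (norm_nonneg _)
    have h6 : ∏ _i : Fin N, r ≤ ∏ i : Fin N, ‖(if ‖a i‖ < r then
        ((r : ℂ) ^ 2 - (starRingEnd ℂ) (a i) * 0) / r else 0 - a i)‖ := by
      refine Finset.prod_le_prod (fun i _ => hr0.le) fun i _ => ?_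
      split_ifs with hi
      · rw [mul_zero, sub_zero, norm_div, norm_pow, Complex.norm_real, Real.norm_eq_abs,
          abs_of_pos hr0]
        field_simp
        exact le_rfl
      · rw [zero_sub, norm_neg]
        exact not_lt.1 hi
    rwa [Finset.prod_const, Finset.card_univ, Fintype.card_fin] at h6
  rw [← h3]
  refine le_trans ?_ h2
  rw [mul_zero, pow_zero, mul_one, h4, mul_comm 2 N, pow_mul, ← mul_pow]
  exact pow_le_pow_left₀ (by positivity) h5 2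

theorem u_zero (hS : Sph g) (hu : DifferentiableOn ℂ u (ball 0 1))
    (hg : ∀ z ∈ ball (0 : ℂ) 1, g z = (∏ i, (z - a i)) * u z) : ‖u 0‖ ^ 2 ≤ (N : ℝ) + 1 := by
  have hN : (0 : ℝ) < (N : ℝ) + 1 := by positivity
  have h1 : ENNReal.ofReal (π * (‖u 0‖ ^ 2 / (N + 1))) ≤
      ENNReal.ofReal (∫ z in ball (0 : ℂ) 1, ‖g z‖ ^ 2) := by
    have hgc : ContinuousOn (fun z => ‖g z‖ ^ 2) (ball 0 1) := hS.1.continuousOn.norm.pow 2
    rw [ofReal_integral_eq_lintegral_ofReal hS.2.1 (Filter.Eventually.of_forall fun z => by positivity),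
      polar hgc (fun z _ => by positivity) le_rfl]
    have h12 : ∫⁻ ρ in Ioo (0 : ℝ) 1, ENNReal.ofReal (2 * π * ‖u 0‖ ^ 2 * ρ ^ (2 * N + 1)) =
        ENNReal.ofReal (π * (‖u 0‖ ^ 2 / (N + 1))) := by
      have hi : IntegrableOn (fun ρ : ℝ => 2 * π * ‖u 0‖ ^ 2 * ρ ^ (2 * N + 1)) (Ioo 0 1) :=
        (Continuous.integrableOn_Icc (by fun_prop)).mono_set Ioo_subset_Icc_self
      rw [← ofReal_integral_eq_lintegral_ofReal hi]
      · congr 1
        rw [← integral_Ioc_eq_integral_Ioo, ← intervalIntegral.integral_of_le zero_le_one,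
          intervalIntegral.integral_const_mul, integral_pow]
        push_cast
        have : (2 * (N : ℝ) + 1 + 1) = 2 * (N + 1) := by ring
        rw [this, zero_pow (by omega)]
        field_simp
        ring
      · refine (ae_restrict_iff' measurableSet_Ioo).2 (Filter.Eventually.of_forall fun ρ hρ => ?_)
        have := hρ.1
        positivity
    rw [← h12]
    refine setLIntegral_mono' measurableSet_Ioo fun ρ hρ => ENNReal.ofReal_le_ofReal ?_
    have h2 := ms_zeros hu hg hρ.1 hρ.2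
    have h3 : circleAverage (fun z => ‖g z‖ ^ 2) 0 ρ = ms g ρ := av_circ _ _
    rw [h3]
    have h4 := mul_le_mul_of_nonneg_left h2 (show 0 ≤ 2 * π * ρ by have := hρ.1; positivity)
    refine le_trans (le_of_eq ?_) h4
    ring
  have h2 : 0 ≤ ∫ z in ball (0 : ℂ) 1, ‖g z‖ ^ 2 := integral_nonneg fun z => by positivity
  have h3 := (ENNReal.ofReal_le_ofReal_iff h2).1 h1
  have h4 := mul_le_mul_of_nonneg_left h3 (show 0 ≤ π⁻¹ by positivity)
  rw [hS.2.2, ← mul_assoc, inv_mul_cancel₀ pi_ne_zero, one_mul, div_le_iff₀ hN, one_mul] at h4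
  exact h4

/-- the basic inequality for the number of zeros -/
theorem zeros_ineq (h0 : 0 < c) (h1 : c < 1) (h : Ext c f g) (hu : DifferentiableOn ℂ u (ball 0 1))
    (hu0 : ∀ z : ℂ, ‖z‖ ≤ c → u z ≠ 0) (ha : ∀ i, ‖a i‖ ≤ c)
    (hg : ∀ z ∈ ball (0 : ℂ) 1, g z = (∏ i, (z - a i)) * u z) :
    1 - 2 * KF c ^ 2 ≤ KF c ^ 2 * (((N : ℝ) + 1) * c ^ (2 * N)) := by
  obtain ⟨α, hα⟩ := ps_exists h.1.1
  have h2 := tail_f h0 h1 h hα
  have h3 := f_zero h0 h1 h hu hu0 ha hg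
  have h4 := u_zero h.2.1 hu hg
  have h5 : ‖f 0‖ ^ 2 ≤ (KF c * ‖u 0‖ * c ^ N) ^ 2 := pow_le_pow_left₀ (norm_nonneg _) h3 2
  rw [ps_zero hα] at h5
  have h6 : (KF c * ‖u 0‖ * c ^ N) ^ 2 = KF c ^ 2 * (‖u 0‖ ^ 2 * c ^ (2 * N)) := by ring
  rw [h6] at h5
  have h7 : KF c ^ 2 * (‖u 0‖ ^ 2 * c ^ (2 * N)) ≤ KF c ^ 2 * (((N : ℝ) + 1) * c ^ (2 * N)) := by
    gcongr
  linarith

/-- the number of zeros of the second function -/
theorem zeros_count (h0 : 0 < c) (h1 : c < 1) (hc : 19 / 20 ≤ c ^ 2) (h : Ext c f g)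
    (hu : DifferentiableOn ℂ u (ball 0 1)) (hu0 : ∀ z : ℂ, ‖z‖ ≤ c → u z ≠ 0)
    (ha : ∀ i, ‖a i‖ ≤ c) (hg : ∀ z ∈ ball (0 : ℂ) 1, g z = (∏ i, (z - a i)) * u z) :
    |N * (1 - c ^ 2) - 1| ≤ 12 * √(1 - c ^ 2) := by
  obtain ⟨n, hlo, hhi⟩ := choose_n h1 h0
  set ε := 1 - c ^ 2 with hε
  have he : 0 < ε := by rw [hε]; nlinarith
  have he1 : ε ≤ 1 / 20 := by rw [hε]; linarith
  have hn18 : (18 : ℝ) ≤ n := by
    by_contra hcon
    push Not at hcon
    have h18 : ((n : ℝ) + 2) * ε ≤ ((n : ℝ) + 2) * (1 / 20) :=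
      mul_le_mul_of_nonneg_left he1 (by positivity)
    linarith
  have hn : 1 ≤ n := by
    have : (1 : ℝ) ≤ n := by linarith
    exact_mod_cast this
  have hn0 : (0 : ℝ) < n := by linarith
  have h2 := zeros_ineq h0 h1 h hu hu0 ha hg
  have h3 := kf_up h0 h1
  have h4 : Real.exp 1 < 2.7182818286 := Real.exp_one_lt_d9
  have hF : KF c ^ 2 ≤ 3 * ε := by
    rw [← hε] at h3
    have h5 : Real.exp 1 * ε ≤ 2.7182818286 * ε := mul_le_mul_of_nonneg_right h4.le he.le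
    nlinarith [sq_nonneg (KF c)]
  -- the weight
  have hlo' := n_lo (c := c) hlo
  have hhi' := n_hi (c := c) hhi
  set x := √(((N : ℝ) + 1) / (n + 1)) with hx
  have hx0 : 0 < x := Real.sqrt_pos.2 (by positivity)
  have hxy : x ^ 2 = ((N : ℝ) + 1) / (n + 1) := Real.sq_sqrt (by positivity)
  have h5 := logw hn h0 hlo' hhi' N hx0 hxy
  set w := x ^ 2 * (c ^ N / c ^ n) ^ 2 with hw
  have hw0 : 0 < w := by positivity
  have ew : w = ((N : ℝ) + 1) * c ^ (2 * N) / (((n : ℝ) + 1) * c ^ (2 * n)) := by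
    rw [hw, hxy, div_pow, ← pow_mul, ← pow_mul, mul_comm N 2, mul_comm n 2]
    field_simp
  have hwl : 1 - 6 * ε ≤ w := by
    have h6 := kf_mono_le h0 n
    have hS0 : 0 < ((n : ℝ) + 1) * c ^ (2 * n) := by positivity
    rw [ew, le_div_iff₀ hS0]
    have h7 : (1 - 6 * ε) * (((n : ℝ) + 1) * c ^ (2 * n)) ≤
        (1 - 2 * KF c ^ 2) * (((n : ℝ) + 1) * c ^ (2 * n)) :=
      mul_le_mul_of_nonneg_right (by linarith) hS0.le
    have h8 : (1 - 2 * KF c ^ 2) * (((n : ℝ) + 1) * c ^ (2 * n)) ≤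
        KF c ^ 2 * (((N : ℝ) + 1) * c ^ (2 * N)) * (((n : ℝ) + 1) * c ^ (2 * n)) :=
      mul_le_mul_of_nonneg_right h2 hS0.le
    have h9 : KF c ^ 2 * (((N : ℝ) + 1) * c ^ (2 * N)) * (((n : ℝ) + 1) * c ^ (2 * n)) ≤
        1 * (((N : ℝ) + 1) * c ^ (2 * N)) := by
      have : 0 ≤ ((N : ℝ) + 1) * c ^ (2 * N) := by positivity
      nlinarith [mul_le_mul_of_nonneg_right h6 this]
    linarith
  have hwl2 : 7 / 10 ≤ w := by linarith
  have hlog : -(9 * ε) ≤ Real.log w := by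
    have h6 : Real.log w⁻¹ ≤ w⁻¹ - 1 := Real.log_le_sub_one_of_pos (by positivity)
    rw [Real.log_inv] at h6
    have h7 : w⁻¹ - 1 ≤ 9 * ε := by
      rw [sub_le_iff_le_add, inv_le_comm₀ hw0 (by positivity), inv_eq_one_div,
        div_le_iff₀ (by positivity)]
      nlinarith
    linarith
  have habs : |x ^ 2 - 1| = |x - 1| * (x + 1) := by
    rw [show x ^ 2 - 1 = (x - 1) * (x + 1) by ring, abs_mul, abs_of_pos (show 0 < x + 1 by linarith)]
  set d := |x - 1| with hd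
  have hd0 : 0 ≤ d := abs_nonneg _
  have hd2 : (x - 1) ^ 2 = d ^ 2 := (sq_abs _).symm
  have hxd : x ≤ 1 + d := by
    have := le_abs_self (x - 1)
    linarith
  rw [hd2, habs] at h5
  have hnε : 9 / 10 ≤ n * ε := by
    have h6 : ((n : ℝ) + 2) * ε = n * ε + 2 * ε := by ring
    linarith
  have h6 : d * (x + 1) / n ≤ d * (d + 2) * (10 / 9 * ε) := by
    rw [div_le_iff₀ hn0]
    have h7 : d * (x + 1) ≤ d * (d + 2) := mul_le_mul_of_nonneg_left (by linarith) hd0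
    have h8 : d * (d + 2) * 1 ≤ d * (d + 2) * (10 / 9 * (n * ε)) :=
      mul_le_mul_of_nonneg_left (by linarith) (by positivity)
    have h9 : d * (d + 2) * (10 / 9 * ε) * n = d * (d + 2) * (10 / 9 * (n * ε)) := by ring
    rw [h9]
    linarith
  have h7 : d ^ 2 ≤ 9 * ε + d * (d + 2) * (10 / 9 * ε) := by linarith
  have hd1 : d ≤ 1 := by
    by_contra hcon
    push Not at hcon
    have h8 : d * (d + 2) * (10 / 9 * ε) ≤ d * (d + 2) * (1 / 18) :=
      mul_le_mul_of_nonneg_left (by linarith) (by positivity)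
    have h9 : 1 * d ≤ d * d := mul_le_mul_of_nonneg_right hcon.le hd0
    have h10 : d ^ 2 = d * d := by ring
    have h11 : d * (d + 2) * (1 / 18) = (d * d) / 18 + d / 9 := by ring
    rw [h10] at h7
    rw [h11] at h8
    linarith
  have h8 : d ^ 2 ≤ 13 * ε := by
    have h9 : d * (d + 2) ≤ 1 * 3 := mul_le_mul hd1 (by linarith) (by linarith) one_pos.le
    have h10 : d * (d + 2) * (10 / 9 * ε) ≤ 1 * 3 * (10 / 9 * ε) :=
      mul_le_mul_of_nonneg_right h9 (by positivity)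
    linarith
  have hr : 0 < √ε := Real.sqrt_pos.2 he
  have hr2 : √ε * √ε = ε := Real.mul_self_sqrt he.le
  have h9 : d ≤ 3.61 * √ε := by
    refine abs_le_of_sq_le_sq' ?_ (by positivity) |>.2
    have h10 : (3.61 * √ε) ^ 2 = 13.0321 * (√ε * √ε) := by ring
    rw [h10, hr2]
    linarith
  have h10 : |x ^ 2 - 1| ≤ 10.83 * √ε := by
    rw [habs]
    have h11 : d * (x + 1) ≤ d * 3 := mul_le_mul_of_nonneg_left (by linarith) hd0
    linarith
  have hr3 : √ε ≤ 1 / 4 := by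
    refine Real.sqrt_le_iff.2 ⟨by norm_num, ?_⟩
    have h11 : ((1 : ℝ) / 4) ^ 2 = 1 / 16 := by norm_num
    rw [h11]
    linarith
  have h11 : (N : ℝ) * ε - 1 = ((n : ℝ) + 1) * ε * (x ^ 2 - 1) + (((n : ℝ) + 1) * ε - 1) - ε := by
    rw [hxy]
    field_simp
    ring
  have h12 : |((n : ℝ) + 1) * ε * (x ^ 2 - 1)| ≤ 10.83 * √ε := by
    rw [abs_mul, abs_of_nonneg (show 0 ≤ ((n : ℝ) + 1) * ε by positivity)]
    calc ((n : ℝ) + 1) * ε * |x ^ 2 - 1| ≤ 1 * |x ^ 2 - 1| :=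
          mul_le_mul_of_nonneg_right hlo (abs_nonneg _)
      _ ≤ _ := by rw [one_mul]; exact h10
  have h13 := abs_le.1 h12
  have h14 : ε ≤ √ε / 4 := by
    have h15 : √ε * √ε ≤ √ε * (1 / 4) := mul_le_mul_of_nonneg_left hr3 hr.le
    linarith
  have h17 : ((n : ℝ) + 2) * ε = ((n : ℝ) + 1) * ε + ε := by ring
  rw [h17] at hhi
  rw [h11, abs_le]
  have h18 := h13.1
  have h19 := h13.2
  constructor
  · linarith
  · linarith

end

end Pool.Agent.Helper23.KB
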